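import Mathlib

/-!
# Finite rule systems on four stacks simulate every partial recursive function
-/

namespace Pool.Agent.Lib.MP_8d6ead_lc

open Turing PartrecToTM2 Relation StateTransition

/-- contents of the four stacks -/
abbrev Stk := K' → List Γ'

/-- elementary operations on stacks -/
inductive Op
  | push (k : K') (a : Γ')
  | pop (k : K') (a : Γ')
  | peek (k : K') (a : Γ')
  | empty (k : K')
  | nop

/-- push `a` on stack `k` -/
def psh (k : K') (a : Γ') (S : Stk) : Stk := Function.update S k (a :: S k)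

/-- the relation on stack contents defined by an operation -/
def Op.Rel : Op → Stk → Stk → Prop
  | .push k a, S, S' => S' = psh k a S
  | .pop k a, S, S' => S = psh k a S'
  | .peek k a, S, S' => (∃ S₀, S = psh k a S₀) ∧ S' = S
  | .empty k, S, S' => S k = [] ∧ S' = S
  | .nop, S, S' => S' = S

/-- one step of a rule system -/
def Step {Q : Type} (R : List (Q × Op × Q)) (c c' : Q × Stk) : Prop :=
  ∃ r ∈ R, r.1 = c.1 ∧ r.2.2 = c'.1 ∧ r.2.1.Rel c.2 c'.2

/-- reachability in a rule system -/
def Reach {Q : Type} (R : List (Q × Op × Q)) : Q × Stk → Q × Stk → Prop :=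
  ReflTransGen (Step R)

/-- list of all symbols -/
def syms : List Γ' := [Γ'.consₗ, Γ'.cons, Γ'.bit0, Γ'.bit1]

theorem mem_syms (a : Γ') : a ∈ syms := by
  cases a <;> simp [syms]

/-- statements -/
abbrev SS := TM2.Stmt (fun _ : K' => Γ') Λ' (Option Γ')

/-- configurations -/
abbrev CC := TM2.Cfg (fun _ : K' => Γ') Λ' (Option Γ')

/-- the machine of Mathlib -/
abbrev trM : Λ' → SS := tr

/-- control states used in the simulation -/
abbrev QS := Option (SS × Option Γ')

/-- rules for executing one statement -/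
noncomputable def rulesOf (q : SS) (v : Option Γ') : List (QS × Op × QS) :=
  match q with
  | TM2.Stmt.push k f q' => [(some (TM2.Stmt.push k f q', v), Op.push k (f v), some (q', v))]
  | TM2.Stmt.peek k f q' =>
      (some (TM2.Stmt.peek k f q', v), Op.empty k, some (q', f v none)) ::
        syms.map fun a => (some (TM2.Stmt.peek k f q', v), Op.peek k a, some (q', f v (some a)))
  | TM2.Stmt.pop k f q' =>
      (some (TM2.Stmt.pop k f q', v), Op.empty k, some (q', f v none)) ::
        syms.map fun a => (some (TM2.Stmt.pop k f q', v), Op.pop k a, some (q', f v (some a)))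
  | TM2.Stmt.load f q' => [(some (TM2.Stmt.load f q', v), Op.nop, some (q', f v))]
  | TM2.Stmt.branch f q₁ q₂ =>
      [(some (TM2.Stmt.branch f q₁ q₂, v), Op.nop, some (cond (f v) q₁ q₂, v))]
  | TM2.Stmt.goto f => [(some (TM2.Stmt.goto f, v), Op.nop, some (trM (f v), v))]
  | TM2.Stmt.halt => [(some (TM2.Stmt.halt, v), Op.nop, none)]

theorem rulesOf_fst {q : SS} {v : Option Γ'} {r} (h : r ∈ rulesOf q v) : r.1 = some (q, v) := by
  cases q <;> simp [rulesOf] at h <;> aesop

/-- the finite set of statements -/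
noncomputable def stF (F : Finset Λ') : Finset SS := by
  classical exact F.biUnion fun l => TM2.stmts₁ (trM l)

/-- the finite rule list -/
noncomputable def rulesF (F : Finset Λ') : List (QS × Op × QS) :=
  (stF F).toList.flatMap fun q => (none :: syms.map some).flatMap fun v => rulesOf q v

theorem mem_opt (v : Option Γ') : v ∈ (none :: syms.map some : List (Option Γ')) := by
  cases v with
  | none => simp
  | some a => simp [mem_syms]

theorem mem_rulesF {F : Finset Λ'} {q : SS} {v : Option Γ'} (hq : q ∈ stF F)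
    {r} (hr : r ∈ rulesOf q v) : r ∈ rulesF F := by
  unfold rulesF
  rw [List.mem_flatMap]
  refine ⟨q, by simpa using hq, ?_⟩
  rw [List.mem_flatMap]
  exact ⟨v, mem_opt v, hr⟩

theorem rulesF_cases {F : Finset Λ'} {r} (h : r ∈ rulesF F) : ∃ q v, q ∈ stF F ∧ r ∈ rulesOf q v := by
  unfold rulesF at h
  rw [List.mem_flatMap] at h
  obtain ⟨q, hq, h⟩ := h
  rw [List.mem_flatMap] at h
  obtain ⟨v, _, h⟩ := h
  exact ⟨q, v, by simpa using hq, h⟩

theorem stF_sub {F : Finset Λ'} {q q' : SS} (h : q ∈ stF F) (h' : q' ∈ TM2.stmts₁ q) :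
    q' ∈ stF F := by
  classical
  simp only [stF, Finset.mem_biUnion] at *
  obtain ⟨l, hl, h⟩ := h
  exact ⟨l, hl, TM2.stmts₁_trans h h'⟩

theorem stF_tr {F : Finset Λ'} {l : Λ'} (h : l ∈ F) : trM l ∈ stF F := by
  classical
  simp only [stF, Finset.mem_biUnion]
  exact ⟨l, h, TM2.stmts₁_self⟩

/-- representation of machine configurations -/
def rep : CC → QS × Stk
  | ⟨some l, v, T⟩ => (some (trM l, v), T)
  | ⟨none, _, T⟩ => (none, T)

/-- completeness inside a statement -/
theorem reach_stmt {F : Finset Λ'} (q : SS) : ∀ (_ : q ∈ stF F) (v : Option Γ') (T : Stk),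
    Reach (rulesF F) (some (q, v), T) (rep (TM2.stepAux q v T)) := by
  classical
  induction q with
  | push k f q ih =>
    intro hq v T
    have hq' : q ∈ stF F := stF_sub hq (by simp [TM2.stmts₁, TM2.stmts₁_self])
    refine ReflTransGen.head ?_ (ih hq' v _)
    exact ⟨(some (TM2.Stmt.push k f q, v), Op.push k (f v), some (q, v)),
      mem_rulesF hq (v := v) (by simp [rulesOf]), rfl, rfl, rfl⟩
  | peek k f q ih =>
    intro hq v T
    have hq' : q ∈ stF F := stF_sub hq (by simp [TM2.stmts₁, TM2.stmts₁_self])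
    refine ReflTransGen.head ?_ (ih hq' _ T)
    rcases hT : T k with _ | ⟨a, l⟩
    · exact ⟨(some (TM2.Stmt.peek k f q, v), Op.empty k, some (q, f v none)),
        mem_rulesF hq (v := v) (by simp [rulesOf]), rfl, by simp, ⟨hT, rfl⟩⟩
    · refine ⟨(some (TM2.Stmt.peek k f q, v), Op.peek k a, some (q, f v (some a))),
        mem_rulesF hq (v := v) (by simp [rulesOf, mem_syms]), rfl, by simp,
        ⟨Function.update T k l, ?_⟩, rfl⟩
      simp [psh, ← hT]
  | pop k f q ih =>
    intro hq v T
    have hq' : q ∈ stF F := stF_sub hq (by simp [TM2.stmts₁, TM2.stmts₁_self])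
    refine ReflTransGen.head ?_ (ih hq' _ _)
    rcases hT : T k with _ | ⟨a, l⟩
    · refine ⟨(some (TM2.Stmt.pop k f q, v), Op.empty k, some (q, f v none)),
        mem_rulesF hq (v := v) (by simp [rulesOf]), rfl, by simp, ⟨hT, ?_⟩⟩
      simp only [List.tail_nil]
      rw [← hT]; simp
    · refine ⟨(some (TM2.Stmt.pop k f q, v), Op.pop k a, some (q, f v (some a))),
        mem_rulesF hq (v := v) (by simp [rulesOf, mem_syms]), rfl, by simp, ?_⟩
      show T = psh k a _
      simp only [psh, List.tail_cons, Function.update_self, Function.update_idem]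
      rw [← hT]; simp
  | load f q ih =>
    intro hq v T
    have hq' : q ∈ stF F := stF_sub hq (by simp [TM2.stmts₁, TM2.stmts₁_self])
    refine ReflTransGen.head ?_ (ih hq' _ T)
    exact ⟨(some (TM2.Stmt.load f q, v), Op.nop, some (q, f v)),
      mem_rulesF hq (v := v) (by simp [rulesOf]), rfl, rfl, rfl⟩
  | branch f q₁ q₂ ih₁ ih₂ =>
    intro hq v T
    have hq₁ : q₁ ∈ stF F := stF_sub hq (by simp [TM2.stmts₁, TM2.stmts₁_self])
    have hq₂ : q₂ ∈ stF F := stF_sub hq (by simp [TM2.stmts₁, TM2.stmts₁_self])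
    have hst : Step (rulesF F) (some (TM2.Stmt.branch f q₁ q₂, v), T)
        (some (cond (f v) q₁ q₂, v), T) :=
      ⟨(some (TM2.Stmt.branch f q₁ q₂, v), Op.nop, some (cond (f v) q₁ q₂, v)),
        mem_rulesF hq (v := v) (by simp [rulesOf]), rfl, rfl, rfl⟩
    refine ReflTransGen.head hst ?_
    simp only [TM2.stepAux]
    cases f v
    · exact ih₂ hq₂ v T
    · exact ih₁ hq₁ v T
  | goto f =>
    intro hq v T
    refine ReflTransGen.single ?_
    exact ⟨(some (TM2.Stmt.goto f, v), Op.nop, some (trM (f v), v)),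
      mem_rulesF hq (v := v) (by simp [rulesOf]), rfl, rfl, rfl⟩
  | halt =>
    intro hq v T
    refine ReflTransGen.single ?_
    exact ⟨(some (TM2.Stmt.halt, v), Op.nop, none),
      mem_rulesF hq (v := v) (by simp [rulesOf]), rfl, rfl, rfl⟩

/-- completeness for a whole computation -/
theorem reach_rep {F : Finset Λ'} (hF : ∀ l ∈ F, TM2.SupportsStmt F (trM l)) {c c' : CC}
    (h : Reaches (TM2.step trM) c c') (hc : c.l ∈ Finset.insertNone F) :
    Reach (rulesF F) (rep c) (rep c') ∧ c'.l ∈ Finset.insertNone F := by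
  classical
  induction h with
  | refl => exact ⟨ReflTransGen.refl, hc⟩
  | @tail b d hb hd ih =>
    obtain ⟨ih1, ih2⟩ := ih
    obtain ⟨l, v, T⟩ := b
    cases l with
    | none => simp at hd
    | some l =>
      have hl : l ∈ F := by simpa using ih2
      simp only [TM2.step, Option.mem_def, Option.some.injEq] at hd
      subst hd
      refine ⟨ih1.trans (reach_stmt _ (stF_tr hl) v T), ?_⟩
      have hsup : ∀ (q : SS), TM2.SupportsStmt F q → ∀ (v : Option Γ') (T : Stk),
          (TM2.stepAux q v T).l ∈ Finset.insertNone F := by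
        intro q
        induction q with
        | push k f q ih => intro h v T; exact ih h _ _
        | peek k f q ih => intro h v T; exact ih h _ _
        | pop k f q ih => intro h v T; exact ih h _ _
        | load f q ih => intro h v T; exact ih h _ _
        | branch f q₁ q₂ ih₁ ih₂ =>
          intro h v T
          simp only [TM2.stepAux]
          cases f v
          · exact ih₂ h.2 _ _
          · exact ih₁ h.1 _ _
        | goto f => intro h v T; simpa using h v
        | halt => intro h v T; simp
      exact hsup _ (hF l hl) v T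

/-- the invariant used for soundness -/
def Inv (c₀ : CC) : QS × Stk → Prop
  | (some (q, v), T) => Reaches (TM2.step trM) c₀ (TM2.stepAux q v T)
  | (none, T) => ∃ v, Reaches (TM2.step trM) c₀ ⟨none, v, T⟩

theorem inv_step {F : Finset Λ'} {c₀ : CC} {x y : QS × Stk} (hx : Inv c₀ x)
    (h : Step (rulesF F) x y) : Inv c₀ y := by
  obtain ⟨r, hr, h1, h2, h3⟩ := h
  obtain ⟨x1, T⟩ := x
  obtain ⟨y1, T'⟩ := y
  simp only at h1 h2 h3
  obtain ⟨q, v, hq, hr⟩ := rulesF_cases hr
  have h1' := rulesOf_fst hr
  rw [h1] at h1'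
  subst h1'
  subst h2
  cases q with
  | push k f q =>
    simp only [rulesOf, List.mem_singleton] at hr
    subst hr
    have h3 : T' = psh k (f v) T := h3
    subst h3
    exact hx
  | peek k f q =>
    simp only [rulesOf, List.mem_cons, List.mem_map] at hr
    rcases hr with rfl | ⟨a, _, rfl⟩
    · obtain ⟨h4, h5⟩ : T k = [] ∧ T' = T := h3
      subst h5
      have : Reaches (TM2.step trM) c₀ (TM2.stepAux (TM2.Stmt.peek k f q) v T') := hx
      simp only [TM2.stepAux, h4, List.head?_nil] at this
      exact this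
    · obtain ⟨⟨S₀, h4⟩, h5⟩ : (∃ S₀, T = psh k a S₀) ∧ T' = T := h3
      subst h5
      have : Reaches (TM2.step trM) c₀ (TM2.stepAux (TM2.Stmt.peek k f q) v T') := hx
      simp only [TM2.stepAux] at this
      rw [show (T' k).head? = some a by rw [h4]; simp [psh]] at this
      exact this
  | pop k f q =>
    simp only [rulesOf, List.mem_cons, List.mem_map] at hr
    rcases hr with rfl | ⟨a, _, rfl⟩
    · obtain ⟨h4, h5⟩ : T k = [] ∧ T' = T := h3
      subst h5
      have : Reaches (TM2.step trM) c₀ (TM2.stepAux (TM2.Stmt.pop k f q) v T') := hx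
      simp only [TM2.stepAux, h4, List.head?_nil, List.tail_nil] at this
      rw [← h4, Function.update_eq_self] at this
      exact this
    · have h4 : T = psh k a T' := h3
      have : Reaches (TM2.step trM) c₀ (TM2.stepAux (TM2.Stmt.pop k f q) v T) := hx
      simp only [TM2.stepAux] at this
      rw [show (T k).head? = some a by rw [h4]; simp [psh],
        show Function.update T k (T k).tail = T' by rw [h4]; simp [psh]] at this
      exact this
  | load f q =>
    simp only [rulesOf, List.mem_singleton] at hr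
    subst hr
    have h3 : T' = T := h3
    subst h3
    exact hx
  | branch f q₁ q₂ =>
    simp only [rulesOf, List.mem_singleton] at hr
    subst hr
    have h3 : T' = T := h3
    subst h3
    have : Reaches (TM2.step trM) c₀ (TM2.stepAux (TM2.Stmt.branch f q₁ q₂) v T') := hx
    simp only [TM2.stepAux] at this
    show Reaches (TM2.step trM) c₀ (TM2.stepAux (cond (f v) q₁ q₂) v T')
    cases hf : f v <;> simpa [hf] using this
  | goto f =>
    simp only [rulesOf, List.mem_singleton] at hr
    subst hr
    have h3 : T' = T := h3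
    subst h3
    have : Reaches (TM2.step trM) c₀ (TM2.stepAux (TM2.Stmt.goto f) v T') := hx
    simp only [TM2.stepAux] at this
    exact ReflTransGen.tail this (by simp)
  | halt =>
    simp only [rulesOf, List.mem_singleton] at hr
    subst hr
    have h3 : T' = T := h3
    subst h3
    exact ⟨v, hx⟩

/-- start configuration of the stacks -/
def stk0 (l : List Γ') : Stk := K'.elim l [] [] []

/-- Every partial recursive function is simulated by a finite rule system. -/
theorem exists_rules (f : ℕ →. ℕ) (hf : Partrec f) :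
    ∃ (R : List (QS × Op × QS)) (q₀ : QS), ∀ n : ℕ,
      (f n).Dom ↔ ∃ T, Reach R (q₀, stk0 (trList [n])) (none, T) := by
  have h1 : Nat.Partrec' (fun v : List.Vector ℕ 1 => f v.head) :=
    Nat.Partrec'.part_iff₁.2 hf
  obtain ⟨c, hc⟩ := ToPartrec.Code.exists_code h1
  refine ⟨rulesF (codeSupp c Cont'.halt), some (trM (trNormal c Cont'.halt), none), fun n => ?_⟩
  have hsup := tr_supports c Cont'.halt
  have hmem : trNormal c Cont'.halt ∈ codeSupp c Cont'.halt := hsup.1
  have heval : StateTransition.eval (TM2.step trM) (init c [n]) = halt <$> c.eval [n] :=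
    tr_eval c [n]
  have hcn : c.eval [n] = (pure <$> f n : Part (List ℕ)) := by
    have := hc ⟨[n], rfl⟩
    exact this
  have hdom : (f n).Dom ↔ (StateTransition.eval (TM2.step trM) (init c [n])).Dom := by
    rw [heval, hcn]; rfl
  rw [hdom]
  constructor
  · intro h
    obtain ⟨b, hb⟩ := Part.dom_iff_mem.1 h
    obtain ⟨hb1, hb2⟩ := StateTransition.mem_eval.1 hb
    have hr := (reach_rep hsup.2 hb1 (by simpa [init] using hmem)).1
    obtain ⟨l, v, T⟩ := b
    cases l with
    | some l => simp [TM2.step] at hb2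
    | none => exact ⟨T, hr⟩
  · rintro ⟨T, hT⟩
    have hinv : Inv (init c [n]) (none, T) := by
      have h0 : Inv (init c [n]) (some (trM (trNormal c Cont'.halt), none), stk0 (trList [n])) := by
        show Reaches (TM2.step trM) (init c [n]) _
        exact ReflTransGen.single (by simp [init, stk0])
      have : ∀ y, Reach (rulesF (codeSupp c Cont'.halt))
          (some (trM (trNormal c Cont'.halt), none), stk0 (trList [n])) y →
          Inv (init c [n]) y := by
        intro y hy
        induction hy with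
        | refl => exact h0
        | tail _ h ih => exact inv_step ih h
      exact this _ hT
    obtain ⟨v, hv⟩ := hinv
    exact Part.dom_iff_mem.2 ⟨_, StateTransition.mem_eval.2 ⟨hv, by simp⟩⟩

/-- The same with natural numbers as control states. -/
theorem exists_rules_nat (f : ℕ →. ℕ) (hf : Partrec f) :
    ∃ (R : List (ℕ × Op × ℕ)) (q₀ qh : ℕ), ∀ n : ℕ,
      (f n).Dom ↔ ∃ T, Reach R (q₀, stk0 (trList [n])) (qh, T) := by
  obtain ⟨R, q₀, hR⟩ := exists_rules f hf
  let s : Set QS := {q | q = q₀ ∨ q = none ∨ ∃ r ∈ R, q = r.1 ∨ q = r.2.2}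
  have hs : s.Finite := by
    have : s ⊆ ({q₀, none} : Set QS) ∪ ({x | x ∈ R.map (fun r => r.1)} ∪ {x | x ∈ R.map (fun r => r.2.2)}) := by
      rintro q (h | h | ⟨r, hr, h | h⟩)
      · simp [h]
      · simp [h]
      · right; left; simp only [Set.mem_ofPred_eq, List.mem_map]; exact ⟨r, hr, h.symm⟩
      · right; right; simp only [Set.mem_ofPred_eq, List.mem_map]; exact ⟨r, hr, h.symm⟩
    exact Set.Finite.subset ((Set.toFinite _).union ((List.finite_toSet _).union (List.finite_toSet _))) this
  obtain ⟨e, he⟩ := Set.countable_iff_exists_injOn.1 hs.countable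
  let R' : List (ℕ × Op × ℕ) := R.map fun r => (e r.1, r.2.1, e r.2.2)
  refine ⟨R', e q₀, e none, fun n => ?_⟩
  rw [hR n]
  constructor
  · rintro ⟨T, hT⟩
    refine ⟨T, ?_⟩
    have : ∀ y, Reach R (q₀, stk0 (trList [n])) y → Reach R' (e q₀, stk0 (trList [n])) (e y.1, y.2) := by
      intro y hy
      induction hy with
      | refl => exact ReflTransGen.refl
      | tail _ h ih =>
        obtain ⟨r, hr, h1, h2, h3⟩ := h
        refine ReflTransGen.tail ih ⟨(e r.1, r.2.1, e r.2.2), ?_, ?_, ?_, h3⟩
        · exact List.mem_map.2 ⟨r, hr, rfl⟩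
        · simp [h1]
        · simp [h2]
    exact this _ hT
  · rintro ⟨T, hT⟩
    have : ∀ y, Reach R' (e q₀, stk0 (trList [n])) y →
        ∃ q ∈ s, e q = y.1 ∧ Reach R (q₀, stk0 (trList [n])) (q, y.2) := by
      intro y hy
      induction hy with
      | refl => exact ⟨q₀, Or.inl rfl, rfl, ReflTransGen.refl⟩
      | tail _ h ih =>
        obtain ⟨r', hr', h1, h2, h3⟩ := h
        obtain ⟨r, hr, rfl⟩ := List.mem_map.1 hr'
        obtain ⟨q, hq, hq1, hq2⟩ := ih
        have hrq : r.1 = q := he (Or.inr (Or.inr ⟨r, hr, Or.inl rfl⟩)) hq (by rw [hq1]; exact h1)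
        refine ⟨r.2.2, Or.inr (Or.inr ⟨r, hr, Or.inr rfl⟩), h2, ?_⟩
        exact ReflTransGen.tail hq2 ⟨r, hr, hrq, rfl, h3⟩
    obtain ⟨q, hq, hq1, hq2⟩ := this _ hT
    have : q = none := he hq (Or.inr (Or.inl rfl)) hq1
    subst this
    exact ⟨T, hq2⟩

end Pool.Agent.Lib.MP_8d6ead_lc
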