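import Mathlib

/-!
# Equality of subspaces up to finite dimension
-/

namespace Pool.Agent.Lib.MP_8d6ead_lc

variable {F V : Type} [Field F] [AddCommGroup V] [Module F V]

/-- `W₁ =* W₂`: the subspaces become equal after adding a finite-dimensional subspace. -/
def AlmostEq (W₁ W₂ : Submodule F V) : Prop :=
  ∃ U : Submodule F V, FiniteDimensional F U ∧ W₁ ⊔ U = W₂ ⊔ U

theorem AlmostEq.rfl' (W : Submodule F V) : AlmostEq W W := ⟨⊥, inferInstance, rfl⟩

theorem AlmostEq.symm' {W₁ W₂ : Submodule F V} (h : AlmostEq W₁ W₂) : AlmostEq W₂ W₁ := by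
  obtain ⟨U, hU, h⟩ := h
  exact ⟨U, hU, h.symm⟩

theorem AlmostEq.trans' {W₁ W₂ W₃ : Submodule F V} (h : AlmostEq W₁ W₂) (h' : AlmostEq W₂ W₃) :
    AlmostEq W₁ W₃ := by
  obtain ⟨U, hU, h⟩ := h
  obtain ⟨U', hU', h'⟩ := h'
  refine ⟨U ⊔ U', inferInstance, ?_⟩
  rw [← sup_assoc, h, sup_assoc, sup_comm U, ← sup_assoc, h', sup_assoc]

theorem AlmostEq.sup {A B C D : Submodule F V} (h : AlmostEq A B) (h' : AlmostEq C D) :
    AlmostEq (A ⊔ C) (B ⊔ D) := by
  obtain ⟨U, hU, h⟩ := h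
  obtain ⟨U', hU', h'⟩ := h'
  refine ⟨U ⊔ U', inferInstance, ?_⟩
  rw [sup_sup_sup_comm, h, h', sup_sup_sup_comm]

theorem almostEq_of_le {A B : Submodule F V} (U : Submodule F V) (hU : FiniteDimensional F U)
    (h1 : A ≤ B) (h2 : B ≤ A ⊔ U) : AlmostEq A B :=
  ⟨U, hU, le_antisymm (sup_le_sup_right h1 _) (sup_le h2 le_sup_right)⟩

/-- key finiteness fact: intersecting with `B ⊔ U` instead of `B` changes only finitely much -/
theorem almostEq_inf_sup (A B U : Submodule F V) (hU : FiniteDimensional F U) :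
    AlmostEq (A ⊓ B) (A ⊓ (B ⊔ U)) := by
  -- the quotient of `A ⊓ (B ⊔ U)` by `A ⊓ B` embeds into `(B ⊔ U) / B`
  obtain ⟨C, hC⟩ := Submodule.exists_isCompl (Submodule.comap (A ⊓ (B ⊔ U)).subtype B)
  refine almostEq_of_le (Submodule.map (A ⊓ (B ⊔ U)).subtype C) ?_ ?_ ?_
  · -- finite dimensionality
    have hfin : FiniteDimensional F C := by
      let g : C →ₗ[F] (V ⧸ B) := B.mkQ ∘ₗ (A ⊓ (B ⊔ U)).subtype ∘ₗ C.subtype
      have hg : Function.Injective g := by
        rw [← LinearMap.ker_eq_bot, eq_bot_iff]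
        intro x hx
        rw [LinearMap.mem_ker] at hx
        have hx' : ((x : ↥(A ⊓ (B ⊔ U))) : V) ∈ B := by
          simpa [g] using hx
        have h1 : (x : ↥(A ⊓ (B ⊔ U))) ∈ Submodule.comap (A ⊓ (B ⊔ U)).subtype B ⊓ C :=
          ⟨hx', x.2⟩
        rw [hC.inf_eq_bot] at h1
        simpa using h1
      have hrange : LinearMap.range g ≤ Submodule.map B.mkQ U := by
        rintro _ ⟨x, rfl⟩
        have hx : ((x : ↥(A ⊓ (B ⊔ U))) : V) ∈ B ⊔ U := (x : ↥(A ⊓ (B ⊔ U))).2.2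
        obtain ⟨b, hb, u, hu, hbu⟩ := Submodule.mem_sup.1 hx
        refine ⟨u, hu, ?_⟩
        have : g x = B.mkQ ((x : ↥(A ⊓ (B ⊔ U))) : V) := rfl
        rw [this, ← hbu, map_add]
        simp [hb]
      have hfr : FiniteDimensional F (LinearMap.range g) :=
        Submodule.finiteDimensional_of_le hrange
      exact LinearEquiv.finiteDimensional (LinearEquiv.ofInjective g hg).symm
    infer_instance
  · exact inf_le_inf_left _ le_sup_left
  · intro x hx
    have h1 : (⟨x, hx⟩ : ↥(A ⊓ (B ⊔ U))) ∈ Submodule.comap (A ⊓ (B ⊔ U)).subtype B ⊔ C := by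
      rw [hC.sup_eq_top]; trivial
    obtain ⟨b, hb, c, hc, hbc⟩ := Submodule.mem_sup.1 h1
    refine Submodule.mem_sup.2 ⟨b, ⟨b.2.1, hb⟩, c, ⟨c, hc, rfl⟩, ?_⟩
    have := congrArg Subtype.val hbc
    simpa using this

theorem AlmostEq.inf_left {B D : Submodule F V} (A : Submodule F V) (h : AlmostEq B D) :
    AlmostEq (A ⊓ B) (A ⊓ D) := by
  obtain ⟨U, hU, h⟩ := h
  have h1 := almostEq_inf_sup A B U hU
  have h2 := almostEq_inf_sup A D U hU
  rw [h] at h1
  exact h1.trans' h2.symm'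

theorem AlmostEq.inf {A B C D : Submodule F V} (h : AlmostEq A B) (h' : AlmostEq C D) :
    AlmostEq (A ⊓ C) (B ⊓ D) := by
  have h1 := AlmostEq.inf_left A h'
  have h2 := AlmostEq.inf_left D h
  rw [inf_comm D A, inf_comm D B] at h2
  exact h1.trans' h2

/-- an infinite-dimensional subspace is not almost equal to the zero subspace -/
theorem finiteDimensional_of_almostEq_bot {W : Submodule F V} (h : AlmostEq W ⊥) :
    FiniteDimensional F W := by
  obtain ⟨U, hU, h⟩ := h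
  rw [bot_sup_eq] at h
  exact Submodule.finiteDimensional_of_le (le_sup_left.trans h.le)

end Pool.Agent.Lib.MP_8d6ead_lc
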