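import Pool.Agent.Lib.MP_8d6ead_lc.Enc

/-!
# Computability of the coding
-/

namespace Pool.Agent.Lib.MP_8d6ead_lc

open Turing PartrecToTM2

theorem trNat_even {n : ℕ} (hn : 0 < n) : trNat (2 * n) = Γ'.bit0 :: trNat n := by
  have h1 : ((2 * n : ℕ) : Num) = (n : Num).bit0 := by
    rw [← Num.bit0_of_bit0]
    push_cast
    ring
  unfold trNat
  rw [h1]
  rcases hp : (n : Num) with _ | p
  · exfalso
    have h0 : (n : Num) = ((0 : ℕ) : Num) := by rw [hp]; rfl
    have := congrArg (fun x : Num => (x : ℕ)) h0
    simp at this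
    omega
  · rfl

theorem trNat_odd (n : ℕ) : trNat (2 * n + 1) = Γ'.bit1 :: trNat n := by
  have h1 : ((2 * n + 1 : ℕ) : Num) = (n : Num).bit1 := by
    rw [← Num.bit1_of_bit1]
    push_cast
    ring
  unfold trNat
  rw [h1]
  rcases (n : Num) with _ | p <;> rfl

/-- code of `push main a t` from the code of `t` -/
def pcode (a : Γ') (c : ℕ) : ℕ :=
  3 * Nat.pair (3 * Nat.pair (3 * Nat.pair (3 * Nat.pair c (Tm.S K'.main a).code + 4)
    Tm.A1.code + 3) Tm.C.code + 4) Tm.A0.code + 3

theorem code_push (a : Γ') (t : Tm) : (Tm.push K'.main a t).code = pcode a t.code := rfl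

theorem pcode_primrec (a : Γ') : Primrec (pcode a) := by
  unfold pcode
  have h3 : ∀ {f : ℕ → ℕ}, Primrec f → ∀ k, Primrec fun c => 3 * Nat.pair (f c) k + 3 := by
    intro f hf k
    exact Primrec.nat_add.comp (Primrec.nat_mul.comp (Primrec.const 3)
      (Primrec₂.natPair.comp hf (Primrec.const k))) (Primrec.const 3)
  have h4 : ∀ {f : ℕ → ℕ}, Primrec f → ∀ k, Primrec fun c => 3 * Nat.pair (f c) k + 4 := by
    intro f hf k
    exact Primrec.nat_add.comp (Primrec.nat_mul.comp (Primrec.const 3)
      (Primrec₂.natPair.comp hf (Primrec.const k))) (Primrec.const 4)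
  exact h3 (h4 (h3 (h4 Primrec.id _) _) _) _

/-- code of the input term -/
def hcode (n : ℕ) : ℕ := (inTm (trList [n])).code

theorem hcode_zero : hcode 0 = pcode Γ'.cons Tm.E0.code := by
  simp [hcode, inTm, code_push]

theorem hcode_even {n : ℕ} (hn : 0 < n) : hcode (2 * n) = pcode Γ'.bit0 (hcode n) := by
  simp only [hcode, trList]
  rw [trNat_even hn]
  rfl

theorem hcode_odd (n : ℕ) : hcode (2 * n + 1) = pcode Γ'.bit1 (hcode n) := by
  simp only [hcode, trList]
  rw [trNat_odd n]
  rfl

theorem hcode_primrec : Primrec hcode := by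
  let g : Unit → List ℕ → Option ℕ := fun _ l =>
    if l.length = 0 then some (pcode Γ'.cons Tm.E0.code) else
      if l.length % 2 = 0 then some (pcode Γ'.bit0 (l.getD (l.length / 2) 0))
      else some (pcode Γ'.bit1 (l.getD (l.length / 2) 0))
  have hg : Primrec₂ g := by
    have hlen : Primrec fun p : Unit × List ℕ => p.2.length :=
      Primrec.list_length.comp Primrec.snd
    have hget : Primrec fun p : Unit × List ℕ => p.2.getD (p.2.length / 2) 0 :=
      (Primrec.list_getD 0).comp Primrec.snd
        (Primrec.nat_div.comp hlen (Primrec.const 2))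
    refine Primrec.ite (Primrec.eq.comp hlen (Primrec.const 0)) (Primrec.const _) ?_
    refine Primrec.ite (Primrec.eq.comp (Primrec.nat_mod.comp hlen (Primrec.const 2))
      (Primrec.const 0)) ?_ ?_
    · exact Primrec.option_some.comp ((pcode_primrec _).comp hget)
    · exact Primrec.option_some.comp ((pcode_primrec _).comp hget)
  have h := Primrec.nat_strong_rec (fun (_ : Unit) n => hcode n) hg ?_
  · exact h.comp (Primrec.const ()) Primrec.id
  · intro _ n
    simp only [g, List.length_map, List.length_range]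
    rcases Nat.eq_zero_or_pos n with rfl | hn
    · simp [hcode_zero]
    · rw [if_neg hn.ne']
      have h2 : n / 2 < n := Nat.div_lt_self hn (by norm_num)
      have h3 : (List.map hcode (List.range n)).getD (n / 2) 0 = hcode (n / 2) := by
        rw [List.getD_eq_getElem?_getD, List.getElem?_map, List.getElem?_range h2]
        rfl
      rw [h3]
      rcases Nat.even_or_odd' n with ⟨m, hm | hm⟩
      · rw [if_pos (by omega)]
        have hm2 : n / 2 = m := by omega
        rw [hm2, hm, hcode_even (by omega)]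
      · rw [if_neg (by omega)]
        have hm2 : n / 2 = m := by omega
        rw [hm2, hm, hcode_odd]

theorem psi_code_primrec (R : List (ℕ × Op × ℕ)) (q₀ qh : ℕ) :
    Primrec fun n => (psi R q₀ qh (trList [n])).code := by
  have h1 : Primrec fun n => (3 * Nat.pair (hcode n) (Tm.D q₀).code + 3) :=
    Primrec.nat_add.comp (Primrec.nat_mul.comp (Primrec.const 3)
      (Primrec₂.natPair.comp hcode_primrec (Primrec.const _))) (Primrec.const 3)
  have h2 : Primrec fun n => 4 * Nat.pair (3 * Nat.pair (hcode n) (Tm.D q₀).code + 3) (hcode n) :=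
    Primrec.nat_mul.comp (Primrec.const 4) (Primrec₂.natPair.comp h1 hcode_primrec)
  have h3 : Primrec fun n =>
      4 * (4 * Nat.pair (4 * Nat.pair (3 * Nat.pair (hcode n) (Tm.D q₀).code + 3) (hcode n))
        (Fm.and (conj (allEqs R qh)) (Fm.neg (Fm.eq Tm.E0 Tm.zero))).code + 2) + 1 :=
    Primrec.nat_add.comp (Primrec.nat_mul.comp (Primrec.const 4)
      (Primrec.nat_add.comp (Primrec.nat_mul.comp (Primrec.const 4)
        (Primrec₂.natPair.comp h2 (Primrec.const _))) (Primrec.const 2))) (Primrec.const 1)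
  exact h3.of_eq fun n => rfl

end Pool.Agent.Lib.MP_8d6ead_lc
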