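import Pool.Agent.Lib.MP_8d6ead_lc.RE
import Pool.Agent.Lib.MP_8d6ead_lc.AlmostEq

/-!
# The lattice of c.e. subspaces modulo finite dimension, and its forall-exists sentences
-/

namespace Pool.Agent.Lib.MP_8d6ead_lc

/-! ### First-order sentences in the language of bounded lattices -/

/-- Terms of the language `{∧, ∨, 0, 1}`; `var i` is the variable `x_i`. -/
inductive Tm
  | var (i : ℕ)
  | zero
  | one
  | inf (s t : Tm)
  | sup (s t : Tm)

/-- Quantifier-free formulas of the language `{∧, ∨, 0, 1}`. -/
inductive Fm
  | eq (s t : Tm)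
  | neg (φ : Fm)
  | and (φ ψ : Fm)
  | or (φ ψ : Fm)

/-- A `∀∃` sentence `∀ x_0 … ∀ x_{m-1} ∃ x_m ∃ x_{m+1} … φ`, where `m = numForall` and `φ = matrix`:
the variables `x_i` with `i < m` are universally quantified and all the other variables
of the quantifier-free formula `φ` are existentially quantified. -/
structure AESentence where
  numForall : ℕ
  matrix : Fm

/-- Goedel number of a term. -/
def Tm.code : Tm → ℕ
  | zero => 0
  | one => 1
  | var i => 3 * i + 2
  | inf s t => 3 * Nat.pair s.code t.code + 3
  | sup s t => 3 * Nat.pair s.code t.code + 4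

/-- Goedel number of a quantifier-free formula. -/
def Fm.code : Fm → ℕ
  | eq s t => 4 * Nat.pair s.code t.code
  | neg φ => 4 * φ.code + 1
  | and φ ψ => 4 * Nat.pair φ.code ψ.code + 2
  | or φ ψ => 4 * Nat.pair φ.code ψ.code + 3

/-- Goedel number of a `∀∃` sentence. -/
def AESentence.code (σ : AESentence) : ℕ := Nat.pair σ.numForall σ.matrix.code

section semantics

variable {L : Type*} [Lattice L] [BoundedOrder L]

/-- Value of a term in a bounded lattice under an assignment. -/
def Tm.eval (x : ℕ → L) : Tm → L
  | var i => x i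
  | zero => ⊥
  | one => ⊤
  | inf s t => s.eval x ⊓ t.eval x
  | sup s t => s.eval x ⊔ t.eval x

/-- Truth of a quantifier-free formula in a bounded lattice under an assignment. -/
def Fm.Holds (x : ℕ → L) : Fm → Prop
  | eq s t => s.eval x = t.eval x
  | neg φ => ¬ φ.Holds x
  | and φ ψ => φ.Holds x ∧ ψ.Holds x
  | or φ ψ => φ.Holds x ∨ ψ.Holds x

variable (L)

/-- Truth of a `∀∃` sentence in a bounded lattice. -/
def AESentence.TrueIn (σ : AESentence) : Prop :=
  ∀ x : ℕ → L, ∃ y : ℕ → L, (∀ i < σ.numForall, y i = x i) ∧ σ.matrix.Holds y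

/-- The `∀∃` theory of `L` is decidable: some computable function decides, given the Goedel number
of a `∀∃` sentence, whether the sentence is true in `L`. -/
def AETheoryDecidable : Prop :=
  ∃ f : ℕ → Bool, Computable f ∧ ∀ σ : AESentence, f σ.code = true ↔ σ.TrueIn L

end semantics

/-! ### Computable vector spaces and their c.e. subspaces -/

section lattice

variable (F V : Type) [Field F] [AddCommGroup V] [Module F V] [Primcodable F] [Primcodable V]

/-- `F` is a computable field and `V` is a computable vector space over `F`: the elements are coded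
by natural numbers (`Primcodable`) and the operations are computable. -/
class ComputableVectorSpace : Prop where
  field_add : Computable₂ fun a b : F => a + b
  field_mul : Computable₂ fun a b : F => a * b
  add : Computable₂ fun u v : V => u + v
  smul : Computable₂ fun (a : F) (v : V) => a • v

omit [Primcodable F] in
/-- `V` has a dependence algorithm over `F`: given a finite list of vectors one can decide whether
the set of its members is linearly independent. -/
def HasDependenceAlgorithm : Prop :=
  ComputablePred fun l : List V => LinearIndependent F fun v : {v : V // v ∈ l} => (v : V)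

theorem computable_sub [ComputableVectorSpace F V] : Computable₂ fun u v : V => u - v := by
  have h1 : Computable₂ fun (_ v : V) => (-1 : F) • v :=
    (ComputableVectorSpace.smul (F := F) (V := V)).comp₂ (Computable.const (-1)).to₂
      Computable.snd.to₂
  have h2 : Computable₂ fun u v : V => u + (-1 : F) • v :=
    (ComputableVectorSpace.add F (V := V)).comp₂ Computable.fst.to₂ h1
  refine h2.of_eq fun p => ?_
  simp [sub_eq_add_neg]

variable {F V}

omit [Primcodable F] in
theorem re_inf {A B : Submodule F V} (hA : REPred fun v : V => v ∈ A)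
    (hB : REPred fun v : V => v ∈ B) : REPred fun v : V => v ∈ A ⊓ B :=
  (re_and hA hB).of_eq fun v => by simp

theorem re_sup [ComputableVectorSpace F V] {A B : Submodule F V} (hA : REPred fun v : V => v ∈ A)
    (hB : REPred fun v : V => v ∈ B) : REPred fun v : V => v ∈ A ⊔ B := by
  have h1 : REPred fun p : V × V => p.2 ∈ A ∧ p.1 - p.2 ∈ B :=
    re_and (re_comp hA Computable.snd)
      (re_comp hB ((computable_sub F V).comp Computable.fst Computable.snd))
  refine (re_exists h1).of_eq fun v => ?_
  rw [Submodule.mem_sup]
  constructor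
  · rintro ⟨u, hu, hv⟩
    exact ⟨u, hu, v - u, hv, by simp⟩
  · rintro ⟨u, hu, w, hw, rfl⟩
    exact ⟨u, hu, by simpa using hw⟩

omit [Primcodable F] in
theorem re_bot : REPred fun v : V => v ∈ (⊥ : Submodule F V) := by
  classical
  have h : ComputablePred fun v : V => v = 0 :=
    Computable.computablePred
      ((Primrec.eq (α := V)).decide.to_comp.comp Computable.id (Computable.const 0))
  exact h.to_re.of_eq fun v => by simp

omit [Primcodable F] in
theorem re_top : REPred fun v : V => v ∈ (⊤ : Submodule F V) := by
  have h : ComputablePred fun _ : V => True :=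
    Computable.computablePred ((Computable.const true).of_eq fun _ => by simp)
  exact h.to_re.of_eq fun v => by simp

variable (F V) [ComputableVectorSpace F V]

/-- The lattice `L(V)` of computably enumerable subspaces of `V`, as a sublattice of the lattice of
all subspaces of `V`. -/
def ceLattice : Sublattice (Submodule F V) where
  carrier := {W | REPred fun v : V => v ∈ W}
  supClosed' := fun _ hA _ hB => re_sup hA hB
  infClosed' := fun _ hA _ hB => re_inf hA hB

/-- The relation `=*` on the lattice `L(V)` of c.e. subspaces. -/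
instance almostSetoid : Setoid (ceLattice F V) where
  r W₁ W₂ := AlmostEq (W₁ : Submodule F V) W₂
  iseqv := ⟨fun _ => AlmostEq.rfl' _, AlmostEq.symm', AlmostEq.trans'⟩

/-- The lattice `L*(V)`: the quotient of the lattice `L(V)` by `=*`. -/
def LStar : Type := Quotient (almostSetoid F V)

/-- The join of `L*(V)`, induced by that of `L(V)`. -/
def LStar.join : LStar F V → LStar F V → LStar F V :=
  Quotient.map₂ (fun W₁ W₂ => W₁ ⊔ W₂) fun _ _ h _ _ h' => AlmostEq.sup h h'

/-- The meet of `L*(V)`, induced by that of `L(V)`. -/
def LStar.meet : LStar F V → LStar F V → LStar F V :=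
  Quotient.map₂ (fun W₁ W₂ => W₁ ⊓ W₂) fun _ _ h _ _ h' => AlmostEq.inf h h'

/-- `L*(V)` is a lattice with the induced operations. -/
instance : Lattice (LStar F V) :=
  @Lattice.mk' (LStar F V) ⟨LStar.join F V⟩ ⟨LStar.meet F V⟩
    (by rintro ⟨a⟩ ⟨b⟩; exact congrArg (Quotient.mk _) (sup_comm a b))
    (by rintro ⟨a⟩ ⟨b⟩ ⟨c⟩; exact congrArg (Quotient.mk _) (sup_assoc a b c))
    (by rintro ⟨a⟩ ⟨b⟩; exact congrArg (Quotient.mk _) (inf_comm a b))
    (by rintro ⟨a⟩ ⟨b⟩ ⟨c⟩; exact congrArg (Quotient.mk _) (inf_assoc a b c))
    (by rintro ⟨a⟩ ⟨b⟩; exact congrArg (Quotient.mk _) (sup_inf_self (a := a) (b := b)))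
    (by rintro ⟨a⟩ ⟨b⟩; exact congrArg (Quotient.mk _) (inf_sup_self (a := a) (b := b)))

/-- The constants `0` (class of the zero subspace) and `1` (class of `V`) of `L*(V)`. -/
instance : BoundedOrder (LStar F V) where
  bot := Quotient.mk _ ⟨⊥, re_bot⟩
  bot_le := by
    rintro ⟨a⟩
    refine sup_eq_right.1 (congrArg (Quotient.mk _) (Subtype.ext ?_))
    exact bot_sup_eq (a : Submodule F V)
  top := Quotient.mk _ ⟨⊤, re_top⟩
  le_top := by
    rintro ⟨a⟩
    refine sup_eq_right.1 (congrArg (Quotient.mk _) (Subtype.ext ?_))
    exact sup_top_eq (a : Submodule F V)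

end lattice

end Pool.Agent.Lib.MP_8d6ead_lc
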