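import Pool.Agent.Lib.MP_8d6ead_lc.Defs

/-!
# Spans of computable families are c.e.; computable independent sequences
-/

namespace Pool.Agent.Lib.MP_8d6ead_lc

section psum

variable {F V α : Type} [Field F] [AddCommGroup V] [Module F V]

/-- partial sums of a list of scaled generators -/
def psum (g : α → V) (l : List (F × α)) (n : ℕ) : V :=
  Nat.rec 0 (fun n acc => (l[n]?).elim acc fun p => p.1 • g p.2 + acc) n

theorem psum_succ (g : α → V) (l : List (F × α)) (n : ℕ) :
    psum g l (n + 1) = (l[n]?).elim (psum g l n) fun p => p.1 • g p.2 + psum g l n := rfl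

theorem psum_append (g : α → V) (l l' : List (F × α)) (n : ℕ) (hn : n ≤ l.length) :
    psum g (l ++ l') n = psum g l n := by
  induction n with
  | zero => rfl
  | succ n ih =>
    rw [psum_succ, psum_succ, ih (by omega), List.getElem?_append_left (by omega)]

theorem psum_concat (g : α → V) (l : List (F × α)) (p : F × α) :
    psum g (l ++ [p]) (l ++ [p]).length = p.1 • g p.2 + psum g l l.length := by
  have : (l ++ [p]).length = l.length + 1 := by simp
  rw [this, psum_succ, psum_append g l [p] _ le_rfl]
  simp

theorem psum_eq (g : α → V) (l : List (F × α)) :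
    psum g l l.length = (l.map fun p => p.1 • g p.2).sum := by
  induction l using List.reverseRecOn with
  | nil => rfl
  | append_singleton l p ih =>
    rw [psum_concat, ih, List.map_append, List.sum_append, add_comm]
    simp

end psum

section span

variable {F V α : Type} [Field F] [AddCommGroup V] [Module F V] [Primcodable F] [Primcodable V]
  [Primcodable α]

theorem computable_psum [ComputableVectorSpace F V] {g : α → V} (hg : Computable g) :
    Computable fun l : List (F × α) => psum g l l.length := by
  have hstep : Computable₂ fun (l : List (F × α)) (q : ℕ × V) =>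
      (l[q.1]?).elim q.2 fun p => p.1 • g p.2 + q.2 := by
    have h1 : Computable fun x : List (F × α) × (ℕ × V) => x.1[x.2.1]? :=
      Computable.list_getElem?.comp Computable.fst (Computable.fst.comp Computable.snd)
    have h2 : Computable fun x : List (F × α) × (ℕ × V) => x.2.2 :=
      Computable.snd.comp Computable.snd
    have h3 : Computable₂ fun (x : List (F × α) × (ℕ × V)) (p : F × α) => p.1 • g p.2 + x.2.2 := by
      have h4 : Computable fun y : (List (F × α) × (ℕ × V)) × (F × α) => y.2.1 • g y.2.2 :=
        (ComputableVectorSpace.smul (F := F) (V := V)).comp (Computable.fst.comp Computable.snd)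
          (hg.comp (Computable.snd.comp Computable.snd))
      exact (ComputableVectorSpace.add F (V := V)).comp h4
        (Computable.snd.comp (Computable.snd.comp Computable.fst))
    have h5 := Computable.option_casesOn h1 h2 h3
    refine h5.of_eq fun x => ?_
    obtain ⟨l, n, v⟩ := x
    simp only
    cases l[n]? <;> simp
  exact Computable.nat_rec Computable.list_length (Computable.const 0) hstep

/-- The span of a computable family of vectors is c.e. -/
theorem re_span [ComputableVectorSpace F V] {g : α → V} (hg : Computable g) :
    REPred fun v : V => v ∈ Submodule.span F (Set.range g) := by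
  refine (re_range (computable_psum (F := F) hg)).of_eq fun v => ?_
  constructor
  · rintro ⟨l, rfl⟩
    rw [psum_eq]
    refine list_sum_mem fun x hx => ?_
    obtain ⟨p, _, rfl⟩ := List.mem_map.1 hx
    exact Submodule.smul_mem _ _ (Submodule.subset_span ⟨p.2, rfl⟩)
  · intro hv
    induction hv using Submodule.span_induction with
    | mem x hx =>
      obtain ⟨a, rfl⟩ := hx
      refine ⟨[(1, a)], ?_⟩
      rw [psum_eq]
      simp
    | zero => exact ⟨[], rfl⟩
    | add x y _ _ hx hy =>
      obtain ⟨l, rfl⟩ := hx
      obtain ⟨l', rfl⟩ := hy
      refine ⟨l ++ l', ?_⟩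
      rw [psum_eq, psum_eq, psum_eq, List.map_append, List.sum_append]
    | smul c x _ hx =>
      obtain ⟨l, rfl⟩ := hx
      refine ⟨l.map fun p => (c * p.1, p.2), ?_⟩
      rw [psum_eq, psum_eq, List.smul_sum, List.map_map, List.map_map]
      congr 2
      funext p
      simp [mul_smul]

end span

section indep

variable {F V : Type} [Field F] [AddCommGroup V] [Module F V] [Primcodable V]

open Encodable

/-- the set of members of the list is linearly independent -/
def Ind (F : Type) {V : Type} [Field F] [AddCommGroup V] [Module F V] (l : List V) : Prop :=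
  LinearIndependent F fun v : {v : V // v ∈ l} => (v : V)

omit [Primcodable V] in
theorem ind_iff (l : List V) : Ind F l ↔ LinearIndepOn F id {v | v ∈ l} := Iff.rfl

omit [Primcodable V] in
theorem exists_next (hinf : ¬ FiniteDimensional F V) {l : List V} (hl : Ind F l) :
    ∃ v, v ∉ l ∧ Ind F (v :: l) := by
  have h1 : Submodule.span F {v | v ∈ l} ≠ ⊤ := by
    intro h
    apply hinf
    have hf : (Set.Finite {v | v ∈ l}) := List.finite_toSet l
    exact ⟨⟨hf.toFinset, by simpa using h⟩⟩
  obtain ⟨v, hv⟩ : ∃ v, v ∉ Submodule.span F {v | v ∈ l} := by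
    by_contra hcon
    push Not at hcon
    exact h1 (eq_top_iff.2 fun v _ => hcon v)
  refine ⟨v, fun h => hv (Submodule.subset_span h), ?_⟩
  rw [ind_iff] at hl ⊢
  have h2 := LinearIndepOn.id_insert hl hv
  convert! h2 using 1
  ext w
  simp

/-- search predicate -/
def SP (F : Type) {V : Type} [Field F] [AddCommGroup V] [Module F V] [Primcodable V]
    (l : List V) (n : ℕ) : Prop :=
  ¬ Ind F l ∨ ∃ v, (decode n : Option V) = some v ∧ v ∉ l ∧ Ind F (v :: l)

theorem sp_computable (hdep : HasDependenceAlgorithm F V) :
    ComputablePred fun p : List V × ℕ => SP F p.1 p.2 := by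
  classical
  have hI : Computable fun l : List V => decide (Ind F l) := ComputablePred.decide hdep
  have hmem : Primrec₂ fun (l : List V) (v : V) => decide (v ∈ l) := by
    have h1 : Primrec₂ fun (l : List V) (v : V) => decide (List.idxOf v l < l.length) :=
      Primrec.nat_lt.decide.comp (Primrec.list_idxOf.comp Primrec.snd Primrec.fst)
        (Primrec.list_length.comp Primrec.fst)
    refine h1.of_eq fun l v => ?_
    simp [List.idxOf_lt_length_iff]
  have h2 : Computable₂ fun (p : List V × ℕ) (v : V) =>
      (!(decide (v ∈ p.1))) && decide (Ind F (v :: p.1)) := by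
    have h3 : Computable fun q : (List V × ℕ) × V => !(decide (q.2 ∈ q.1.1)) :=
      Primrec.not.to_comp.comp (hmem.to_comp.comp (Computable.fst.comp Computable.fst)
        Computable.snd)
    have h4 : Computable fun q : (List V × ℕ) × V => decide (Ind F (q.2 :: q.1.1)) :=
      hI.comp (Computable.list_cons.comp Computable.snd (Computable.fst.comp Computable.fst))
    exact Primrec.and.to_comp.comp h3 h4
  have h5 : Computable fun p : List V × ℕ => (decode p.2 : Option V) :=
    Computable.decode.comp Computable.snd
  have h6 := Computable.option_casesOn h5 (Computable.const false) h2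
  have h7 : Computable fun p : List V × ℕ => (!(decide (Ind F p.1))) ||
      (Option.casesOn (decode p.2 : Option V) false fun v =>
        (!(decide (v ∈ p.1))) && decide (Ind F (v :: p.1)) : Bool) :=
    Primrec.or.to_comp.comp (Primrec.not.to_comp.comp (hI.comp Computable.fst)) h6
  refine Computable.computablePred (h7.of_eq fun p => ?_)
  obtain ⟨l, n⟩ := p
  rcases hd : (decode n : Option V) with _ | v
  · simp [SP, hd]
  · simp [SP, hd]

theorem sp_exists (hinf : ¬ FiniteDimensional F V) (l : List V) : ∃ n, SP F l n := by
  by_cases hl : Ind F l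
  · obtain ⟨v, hv1, hv2⟩ := exists_next hinf hl
    exact ⟨encode v, Or.inr ⟨v, encodek v, hv1, hv2⟩⟩
  · exact ⟨0, Or.inl hl⟩

/-- A computable linearly independent sequence. -/
theorem exists_indep_seq (hdep : HasDependenceAlgorithm F V)
    (hinf : ¬ FiniteDimensional F V) :
    ∃ b : ℕ → V, Computable b ∧ LinearIndependent F b := by
  classical
  let nx : List V → V := fun l => ((decode (Nat.find (sp_exists hinf l)) : Option V)).getD 0
  have hnx : Computable nx := by
    have h1 := Computable.find (sp_computable hdep) (sp_exists hinf)
    exact Computable.option_getD (Computable.decode.comp h1) (Computable.const 0)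
  have hnx1 : ∀ l, Ind F l → nx l ∉ l ∧ Ind F (nx l :: l) := by
    intro l hl
    have h1 := Nat.find_spec (sp_exists hinf l)
    rcases h1 with h1 | ⟨v, hv, hv1, hv2⟩
    · exact absurd hl h1
    · have : nx l = v := by
        show ((decode (Nat.find (sp_exists hinf l)) : Option V)).getD 0 = v
        rw [hv]; rfl
      rw [this]
      exact ⟨hv1, hv2⟩
  let bs : ℕ → List V := fun n => Nat.rec [] (fun _ l => nx l :: l) n
  have hbs : Computable bs := by
    have hst : Computable₂ fun (_ : ℕ) (q : ℕ × List V) => nx q.2 :: q.2 :=
      Computable.list_cons.comp (hnx.comp (Computable.snd.comp Computable.snd))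
        (Computable.snd.comp Computable.snd)
    exact Computable.nat_rec Computable.id (Computable.const []) hst
  have hind : ∀ n, Ind F (bs n) := by
    intro n
    induction n with
    | zero =>
      rw [ind_iff]
      simp [bs]
    | succ n ih => exact (hnx1 _ ih).2
  let b : ℕ → V := fun n => nx (bs n)
  have hmem : ∀ n m, n < m → b n ∈ bs m := by
    intro n m hnm
    induction m with
    | zero => omega
    | succ m ih =>
      show b n ∈ nx (bs m) :: bs m
      rcases Nat.lt_succ_iff_lt_or_eq.1 hnm with h | rfl
      · exact List.mem_cons_of_mem _ (ih h)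
      · exact List.mem_cons_self
  have hinj : Function.Injective b := by
    have h1 : ∀ n m, n < m → b n ≠ b m := by
      intro n m hnm h
      have h2 := hmem n m hnm
      rw [h] at h2
      exact (hnx1 _ (hind m)).1 h2
    intro n m h
    rcases lt_trichotomy n m with h2 | h2 | h2
    · exact absurd h (h1 n m h2)
    · exact h2
    · exact absurd h.symm (h1 m n h2)
  refine ⟨b, hnx.comp hbs, ?_⟩
  rw [← linearIndepOn_id_range_iff hinj]
  have hU : LinearIndepOn F id (⋃ n, {v | v ∈ bs n}) := by
    refine linearIndepOn_iUnion_of_directed ?_ fun n => hind n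
    intro n m
    have hmono : ∀ k, ∀ n ≤ k, {v | v ∈ bs n} ⊆ {v | v ∈ bs k} := by
      intro k
      induction k with
      | zero => intro n hn; rw [Nat.le_zero.1 hn]
      | succ k ih =>
        intro n hn
        rcases Nat.lt_or_ge n (k + 1) with h | h
        · intro v hv
          exact List.mem_cons_of_mem _ (ih n (by omega) hv)
        · have : n = k + 1 := by omega
          rw [this]
    exact ⟨max n m, hmono _ _ (le_max_left _ _), hmono _ _ (le_max_right _ _)⟩
  refine hU.mono ?_
  rintro _ ⟨n, rfl⟩
  exact Set.mem_iUnion.2 ⟨n + 1, hmem n (n + 1) (Nat.lt_succ_self n)⟩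

end indep

end Pool.Agent.Lib.MP_8d6ead_lc
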