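import Pool.Agent.Lib.MP_8d6ead_lc.StkPrim
import Pool.Agent.Lib.MP_8d6ead_lc.Span

/-!
# Embedding of the model into a computable vector space
-/

namespace Pool.Agent.Lib.MP_8d6ead_lc

open Turing PartrecToTM2 Relation Encodable

section linear

variable {F V : Type} [Field F] [AddCommGroup V] [Module F V]

/-- position of a basis vector -/
def pos (i : ℕ) (p : Stk × ℕ) : ℕ := Nat.pair i (Nat.pair (encode p.1) p.2)

theorem pos_inj {i j : ℕ} {p q : Stk × ℕ} (h : pos i p = pos j q) : i = j ∧ p = q := by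
  unfold pos at h
  rw [Nat.pair_eq_pair, Nat.pair_eq_pair] at h
  obtain ⟨h1, h2, h3⟩ := h
  exact ⟨h1, Prod.ext (encode_injective h2) h3⟩

/-- basis vector of a copy -/
def bb (b : ℕ → V) (i : ℕ) (p : Stk × ℕ) : V := b (pos i p)

/-- the embedding of the model -/
noncomputable def Phi (F : Type) {V : Type} [Field F] [AddCommGroup V] [Module F V] (b : ℕ → V) :
    (NN F × NN F × NN F) →ₗ[F] V :=
  (Finsupp.linearCombination F (bb b 0)).coprod
    ((Finsupp.linearCombination F (bb b 1)).coprod (Finsupp.linearCombination F (bb b 2)))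

theorem Phi_apply (b : ℕ → V) (x : NN F × NN F × NN F) :
    Phi F b x = Finsupp.linearCombination F (bb b 0) x.1 +
      (Finsupp.linearCombination F (bb b 1) x.2.1 + Finsupp.linearCombination F (bb b 2) x.2.2) :=
  rfl

theorem Phi_injective {b : ℕ → V} (hb : LinearIndependent F b) :
    Function.Injective (Phi F b) := by
  let ps : (Stk × ℕ) ⊕ ((Stk × ℕ) ⊕ (Stk × ℕ)) → ℕ :=
    Sum.elim (pos 0) (Sum.elim (pos 1) (pos 2))
  have hps : Function.Injective ps := by
    rintro (p | p | p) (q | q | q) h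
    · rw [(pos_inj h).2]
    · exact absurd (pos_inj h).1 (by norm_num)
    · exact absurd (pos_inj h).1 (by norm_num)
    · exact absurd (pos_inj h).1 (by norm_num)
    · rw [(pos_inj h).2]
    · exact absurd (pos_inj h).1 (by norm_num)
    · exact absurd (pos_inj h).1 (by norm_num)
    · exact absurd (pos_inj h).1 (by norm_num)
    · rw [(pos_inj h).2]
  have h1 := hb.comp ps hps
  obtain ⟨h2, h3, h4⟩ := linearIndependent_sum.1 h1
  obtain ⟨h5, h6, h7⟩ := linearIndependent_sum.1 h3
  have e0 : (b ∘ ps) ∘ Sum.inl = bb b 0 := rfl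
  have e1 : ((b ∘ ps) ∘ Sum.inr) ∘ Sum.inl = bb b 1 := rfl
  have e2 : ((b ∘ ps) ∘ Sum.inr) ∘ Sum.inr = bb b 2 := rfl
  rw [e0] at h2 h4
  rw [e1] at h5 h7
  rw [e2] at h6 h7
  rw [← LinearMap.ker_eq_bot, eq_bot_iff]
  rintro ⟨x0, x1, x2⟩ hx
  rw [LinearMap.mem_ker, Phi_apply] at hx
  simp only at hx
  have m0 : Finsupp.linearCombination F (bb b 0) x0 ∈ Submodule.span F (Set.range (bb b 0)) := by
    rw [← Finsupp.range_linearCombination]; exact ⟨x0, rfl⟩
  have m1 : Finsupp.linearCombination F (bb b 1) x1 ∈ Submodule.span F (Set.range (bb b 1)) := by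
    rw [← Finsupp.range_linearCombination]; exact ⟨x1, rfl⟩
  have m2 : Finsupp.linearCombination F (bb b 2) x2 ∈ Submodule.span F (Set.range (bb b 2)) := by
    rw [← Finsupp.range_linearCombination]; exact ⟨x2, rfl⟩
  have hsub1 : Submodule.span F (Set.range (bb b 1)) ≤
      Submodule.span F (Set.range ((b ∘ ps) ∘ Sum.inr)) := by
    apply Submodule.span_mono
    rintro _ ⟨p, rfl⟩
    exact ⟨Sum.inl p, rfl⟩
  have hsub2 : Submodule.span F (Set.range (bb b 2)) ≤
      Submodule.span F (Set.range ((b ∘ ps) ∘ Sum.inr)) := by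
    apply Submodule.span_mono
    rintro _ ⟨p, rfl⟩
    exact ⟨Sum.inr p, rfl⟩
  have z0 : Finsupp.linearCombination F (bb b 0) x0 = 0 := by
    refine Submodule.disjoint_def.1 h4 _ m0 ?_
    rw [eq_neg_of_add_eq_zero_left hx]
    exact Submodule.neg_mem _ (Submodule.add_mem _ (hsub1 m1) (hsub2 m2))
  rw [z0, zero_add] at hx
  have z1 : Finsupp.linearCombination F (bb b 1) x1 = 0 := by
    refine Submodule.disjoint_def.1 h7 _ m1 ?_
    rw [eq_neg_of_add_eq_zero_left hx]
    exact Submodule.neg_mem _ m2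
  rw [z1, zero_add] at hx
  have y0 : x0 = 0 := h2 (by rw [z0, map_zero])
  have y1 : x1 = 0 := h5 (by rw [z1, map_zero])
  have y2 : x2 = 0 := h6 (by rw [hx, map_zero])
  simp [y0, y1, y2]

theorem map_J0 (b : ℕ → V) (X : Set Stk) :
    (J0 (supp F X)).map (Phi F b) = Submodule.span F (bb b 0 '' {p | p.1 ∈ X}) := by
  rw [Finsupp.span_image_eq_map_linearCombination]
  ext v
  simp only [Submodule.mem_map, mem_J0]
  constructor
  · rintro ⟨⟨x0, x1, x2⟩, ⟨h1, h2, h3⟩, rfl⟩
    simp only at h1 h2 h3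
    subst h2 h3
    exact ⟨x0, h1, by simp [Phi_apply]⟩
  · rintro ⟨x0, h1, rfl⟩
    exact ⟨(x0, 0, 0), ⟨h1, rfl, rfl⟩, by simp [Phi_apply]⟩

theorem map_J0_top (b : ℕ → V) :
    (J0 (⊤ : Submodule F (NN F))).map (Phi F b) = Submodule.span F (Set.range (bb b 0)) := by
  rw [← Finsupp.range_linearCombination]
  ext v
  simp only [Submodule.mem_map, mem_J0, LinearMap.mem_range]
  constructor
  · rintro ⟨⟨x0, x1, x2⟩, ⟨h1, h2, h3⟩, rfl⟩
    simp only at h1 h2 h3
    subst h2 h3
    exact ⟨x0, by simp [Phi_apply]⟩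
  · rintro ⟨x0, rfl⟩
    exact ⟨(x0, 0, 0), ⟨trivial, rfl, rfl⟩, by simp [Phi_apply]⟩

theorem map_J1_top (b : ℕ → V) :
    (J1 (⊤ : Submodule F (NN F))).map (Phi F b) = Submodule.span F (Set.range (bb b 1)) := by
  rw [← Finsupp.range_linearCombination]
  ext v
  simp only [Submodule.mem_map, mem_J1, LinearMap.mem_range]
  constructor
  · rintro ⟨⟨x0, x1, x2⟩, ⟨h1, h2, h3⟩, rfl⟩
    simp only at h1 h2 h3
    subst h1 h3
    exact ⟨x1, by simp [Phi_apply]⟩
  · rintro ⟨x0, rfl⟩
    exact ⟨(0, x0, 0), ⟨rfl, trivial, rfl⟩, by simp [Phi_apply]⟩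

theorem map_J2_top (b : ℕ → V) :
    (J2 (⊤ : Submodule F (NN F))).map (Phi F b) = Submodule.span F (Set.range (bb b 2)) := by
  rw [← Finsupp.range_linearCombination]
  ext v
  simp only [Submodule.mem_map, mem_J2, LinearMap.mem_range]
  constructor
  · rintro ⟨⟨x0, x1, x2⟩, ⟨h1, h2, h3⟩, rfl⟩
    simp only at h1 h2 h3
    subst h1 h2
    exact ⟨x2, by simp [Phi_apply]⟩
  · rintro ⟨x0, rfl⟩
    exact ⟨(0, 0, x0), ⟨rfl, rfl, trivial⟩, by simp [Phi_apply]⟩

theorem map_G01 (b : ℕ → V) (f : NN F →ₗ[F] NN F) (g : Stk × ℕ → Stk × ℕ)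
    (hf : ∀ p, f (Finsupp.single p 1) = Finsupp.single (g p) 1) :
    (G01 f).map (Phi F b) = Submodule.span F (Set.range fun p => bb b 0 p - bb b 1 (g p)) := by
  rw [← Finsupp.range_linearCombination]
  have key : ∀ x : NN F, Phi F b (x, -f x, 0) =
      Finsupp.linearCombination F (fun p => bb b 0 p - bb b 1 (g p)) x := by
    intro x
    let A : NN F →ₗ[F] V := (Phi F b) ∘ₗ
      (LinearMap.prod LinearMap.id (LinearMap.prod (-f) 0))
    have hA : A = Finsupp.linearCombination F (fun p => bb b 0 p - bb b 1 (g p)) := by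
      ext p
      simp [A, Phi_apply, hf, sub_eq_add_neg]
    exact congrArg (fun T : NN F →ₗ[F] V => T x) hA
  ext v
  simp only [Submodule.mem_map, mem_G01, LinearMap.mem_range]
  constructor
  · rintro ⟨⟨x0, x1, x2⟩, ⟨h1, h2⟩, rfl⟩
    simp only at h1 h2
    subst h1 h2
    exact ⟨x0, (key x0).symm⟩
  · rintro ⟨x0, rfl⟩
    exact ⟨(x0, -f x0, 0), ⟨rfl, rfl⟩, key x0⟩

theorem map_G12 (b : ℕ → V) (f : NN F →ₗ[F] NN F) (g : Stk × ℕ → Stk × ℕ)
    (hf : ∀ p, f (Finsupp.single p 1) = Finsupp.single (g p) 1) :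
    (G12 f).map (Phi F b) = Submodule.span F (Set.range fun p => bb b 1 p - bb b 2 (g p)) := by
  rw [← Finsupp.range_linearCombination]
  have key : ∀ x : NN F, Phi F b (0, x, -f x) =
      Finsupp.linearCombination F (fun p => bb b 1 p - bb b 2 (g p)) x := by
    intro x
    let A : NN F →ₗ[F] V := (Phi F b) ∘ₗ
      (LinearMap.prod 0 (LinearMap.prod LinearMap.id (-f)))
    have hA : A = Finsupp.linearCombination F (fun p => bb b 1 p - bb b 2 (g p)) := by
      ext p
      simp [A, Phi_apply, hf, sub_eq_add_neg]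
    exact congrArg (fun T : NN F →ₗ[F] V => T x) hA
  ext v
  simp only [Submodule.mem_map, mem_G12, LinearMap.mem_range]
  constructor
  · rintro ⟨⟨x0, x1, x2⟩, ⟨h1, h2⟩, rfl⟩
    simp only at h1 h2
    subst h1 h2
    exact ⟨x1, (key x1).symm⟩
  · rintro ⟨x0, rfl⟩
    exact ⟨(0, x0, -f x0), ⟨rfl, rfl⟩, key x0⟩

/-- the image of the initial element is infinite-dimensional -/
theorem infinite_dim {b : ℕ → V} (hb : LinearIndependent F b) (X : Set Stk) (S : Stk)
    (hS : S ∈ X) : ¬ FiniteDimensional F ((J0 (supp F X)).map (Phi F b)) := by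
  intro hfin
  rw [map_J0] at hfin
  let W := Submodule.span F (bb b 0 '' {p : Stk × ℕ | p.1 ∈ X})
  let w : ℕ → W := fun m => ⟨bb b 0 (S, m), Submodule.subset_span ⟨(S, m), hS, rfl⟩⟩
  have hw : LinearIndependent F w := by
    have h1 : LinearIndependent F (fun m : ℕ => b (pos 0 (S, m))) :=
      hb.comp (fun m => pos 0 (S, m)) fun m n h => by simpa using (pos_inj h).2
    exact LinearIndependent.of_comp W.subtype h1
  have := hw.finite_of_isNoetherian
  exact not_finite ℕ

end linear

section effective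

variable {F V : Type} [Field F] [AddCommGroup V] [Module F V] [Primcodable F] [Primcodable V]
  [ComputableVectorSpace F V]

theorem pos_primrec (i : ℕ) : Primrec (pos i) :=
  Primrec₂.natPair.comp (Primrec.const i)
    (Primrec₂.natPair.comp (Primrec.encode.comp Primrec.fst) Primrec.snd)

omit [Field F] [Module F V] [AddCommGroup V] [Primcodable F] [ComputableVectorSpace F V] in
theorem bb_computable {b : ℕ → V} (hb : Computable b) (i : ℕ) : Computable (bb b i) :=
  hb.comp (pos_primrec i).to_comp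

theorem re_J0_top {b : ℕ → V} (hb : Computable b) :
    REPred fun v : V => v ∈ (J0 (⊤ : Submodule F (NN F))).map (Phi F b) := by
  rw [map_J0_top]; exact re_span (bb_computable hb 0)

theorem re_J1_top {b : ℕ → V} (hb : Computable b) :
    REPred fun v : V => v ∈ (J1 (⊤ : Submodule F (NN F))).map (Phi F b) := by
  rw [map_J1_top]; exact re_span (bb_computable hb 1)

theorem re_J2_top {b : ℕ → V} (hb : Computable b) :
    REPred fun v : V => v ∈ (J2 (⊤ : Submodule F (NN F))).map (Phi F b) := by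
  rw [map_J2_top]; exact re_span (bb_computable hb 2)

theorem re_G01 {b : ℕ → V} (hb : Computable b) (f : NN F →ₗ[F] NN F) (g : Stk × ℕ → Stk × ℕ)
    (hf : ∀ p, f (Finsupp.single p 1) = Finsupp.single (g p) 1) (hg : Computable g) :
    REPred fun v : V => v ∈ (G01 f).map (Phi F b) := by
  rw [map_G01 b f g hf]
  exact re_span ((computable_sub F V).comp (bb_computable hb 0) ((bb_computable hb 1).comp hg))

theorem re_G12 {b : ℕ → V} (hb : Computable b) (f : NN F →ₗ[F] NN F) (g : Stk × ℕ → Stk × ℕ)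
    (hf : ∀ p, f (Finsupp.single p 1) = Finsupp.single (g p) 1) (hg : Computable g) :
    REPred fun v : V => v ∈ (G12 f).map (Phi F b) := by
  rw [map_G12 b f g hf]
  exact re_span ((computable_sub F V).comp (bb_computable hb 1) ((bb_computable hb 2).comp hg))

theorem re_J0_enum {b : ℕ → V} (hb : Computable b) {τ : Type} [Primcodable τ] {X : Set Stk}
    (e : τ → Option Stk) (he : Computable e) (hX : ∀ S, S ∈ X ↔ ∃ t, e t = some S) :
    REPred fun v : V => v ∈ (J0 (supp F X)).map (Phi F b) := by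
  let g : τ × ℕ → V := fun p => (e p.1).elim 0 fun S => bb b 0 (S, p.2)
  have hg : Computable g := by
    have h1 : Computable fun p : τ × ℕ => e p.1 := he.comp Computable.fst
    have h2 : Computable₂ fun (p : τ × ℕ) (S : Stk) => bb b 0 (S, p.2) :=
      (bb_computable hb 0).comp (Computable.pair Computable.snd
        (Computable.snd.comp Computable.fst))
    refine (Computable.option_casesOn h1 (Computable.const 0) h2).of_eq fun p => ?_
    rcases hp : e p.1 with _ | S <;> simp [g, hp]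
  have h : (J0 (supp F X)).map (Phi F b) = Submodule.span F (Set.range g) := by
    rw [map_J0]
    apply le_antisymm
    · rw [Submodule.span_le]
      rintro _ ⟨⟨S, m⟩, hS, rfl⟩
      obtain ⟨t, ht⟩ := (hX S).1 hS
      refine Submodule.subset_span ⟨(t, m), ?_⟩
      simp [g, ht]
    · rw [Submodule.span_le]
      rintro _ ⟨⟨t, m⟩, rfl⟩
      rcases ht : e t with _ | S
      · simp [g, ht]
      · refine Submodule.subset_span ⟨(S, m), (hX S).2 ⟨t, ht⟩, ?_⟩
        simp [g, ht]
  rw [h]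
  exact re_span hg

end effective

end Pool.Agent.Lib.MP_8d6ead_lc
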