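import Pool.Agent.Lib.MP_8d6ead_lc.RuleSys

/-!
# Modular lattice computations
-/

namespace Pool.Agent.Lib.MP_8d6ead_lc

open Turing PartrecToTM2 Relation

section general

variable {L : Type*} [Lattice L] [IsModularLattice L] [OrderBot L]

theorem gl {x p q c : L} (hx : x ≤ p) (hp : p ≤ q ⊔ c) (hc : c ⊓ p = ⊥) :
    (((x ⊔ c) ⊓ q) ⊔ c) ⊓ p = x := by
  have h1 : ((x ⊔ c) ⊓ q) ⊔ c = (x ⊔ c) ⊓ (q ⊔ c) :=
    inf_sup_assoc_of_le q (le_sup_right : c ≤ x ⊔ c)
  rw [h1, inf_assoc, inf_eq_right.2 hp, sup_inf_assoc_of_le c hx, hc, sup_bot_eq]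

theorem comp_apply {a0 a1 a2 y t r : L} (hy : y ≤ a0) (ht : t ≤ a0 ⊔ a1) (hr : r ≤ a1 ⊔ a2)
    (h5 : (a0 ⊔ a1) ⊓ (a1 ⊔ a2) ≤ a1) :
    (((y ⊔ t) ⊓ a1) ⊔ r) ⊓ a2 = (y ⊔ (t ⊔ r) ⊓ (a0 ⊔ a2)) ⊓ a2 := by
  have h1 : y ⊔ (t ⊔ r) ⊓ (a0 ⊔ a2) = (y ⊔ (t ⊔ r)) ⊓ (a0 ⊔ a2) :=
    (sup_inf_assoc_of_le _ (hy.trans le_sup_left)).symm
  have h2 : (y ⊔ t) ⊓ (a1 ⊔ a2) = (y ⊔ t) ⊓ a1 := by
    apply le_antisymm
    · refine le_inf inf_le_left ?_
      refine le_trans ?_ h5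
      exact inf_le_inf_right _ (sup_le (hy.trans le_sup_left) ht)
    · exact inf_le_inf_left _ le_sup_left
  have h3 : (y ⊔ t) ⊓ a1 ⊔ r = (r ⊔ (y ⊔ t)) ⊓ (a1 ⊔ a2) := by
    rw [← h2, sup_comm, ← sup_inf_assoc_of_le _ hr]
  rw [h1, h3, inf_assoc, inf_assoc, inf_eq_right.2 (le_sup_right : a2 ≤ a1 ⊔ a2),
    inf_eq_right.2 (le_sup_right : a2 ≤ a0 ⊔ a2), sup_comm r, sup_assoc]

end general

/-- the data of a solution of the system of relations -/
structure Sys (L : Type*) where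
  a0 : L
  a1 : L
  a2 : L
  c : L
  c' : L
  e0 : L
  z : K' → L
  s : K' → Γ' → L
  s' : K' → Γ' → L
  d : ℕ → L

namespace Sys

variable {L : Type*} [Lattice L]

/-- push as an operation on elements below `a0` -/
def push (M : Sys L) (k : K') (a : Γ') (y : L) : L :=
  (((y ⊔ M.s k a) ⊓ M.a1) ⊔ M.c) ⊓ M.a0

/-- pop as an operation on elements below `a0` -/
def pop (M : Sys L) (k : K') (a : Γ') (y : L) : L :=
  (((y ⊔ M.c) ⊓ M.a1) ⊔ M.s k a) ⊓ M.a0

/-- composition of relations -/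
def comp (M : Sys L) (r t : L) : L := (t ⊔ r) ⊓ (M.a0 ⊔ M.a2)

/-- iterated push -/
def pushL (M : Sys L) (k : K') (l : List Γ') (y : L) : L :=
  l.foldr (fun a y => M.push k a y) y

/-- the element coding a stack configuration -/
def E (M : Sys L) (S : Stk) : L :=
  M.pushL K'.main (S K'.main) (M.pushL K'.rev (S K'.rev)
    (M.pushL K'.aux (S K'.aux) (M.pushL K'.stack (S K'.stack) M.e0)))

/-- meaning of a rule -/
def OpHolds (M : Sys L) (y : L) (op : Op) (y' : L) : Prop :=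
  match op with
  | .push k a => M.push k a y ≤ y'
  | .pop k a => M.pop k a y ≤ y'
  | .peek k a => M.push k a (M.pop k a y) ≤ y'
  | .empty k => M.z k ⊓ y ≤ y'
  | .nop => y ≤ y'

/-- the relations that do not mention the rules -/
structure Base [OrderBot L] (M : Sys L) : Prop where
  g1 : M.a1 ≤ M.a0 ⊔ M.c
  g2 : M.c ⊓ M.a1 = ⊥
  g3 : M.a0 ≤ M.a1 ⊔ M.c
  g3' : M.c ⊓ M.a0 = ⊥
  g4 : M.a1 ≤ M.a2 ⊔ M.c'
  g4' : M.c' ⊓ M.a1 = ⊥
  g5 : (M.a0 ⊔ M.a1) ⊓ (M.a1 ⊔ M.a2) ≤ M.a1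
  g6 : M.e0 ≤ M.a0
  g7 : M.c ≤ M.a0 ⊔ M.a1
  g8 : M.c' ≤ M.a1 ⊔ M.a2
  g9 : ∀ k a, M.s k a ≤ M.a0 ⊔ M.a1
  g10 : ∀ k a, M.s' k a ≤ M.a1 ⊔ M.a2
  s1 : ∀ k a, M.a0 ≤ M.a1 ⊔ M.s k a
  s4 : ∀ k a, M.s k a ⊓ M.a0 = ⊥
  s2 : ∀ k a l b, k ≠ l → M.comp (M.s' k a) (M.s l b) = M.comp (M.s' l b) (M.s k a)
  s3 : ∀ k a, M.comp (M.s' k a) M.c = M.comp M.c' (M.s k a)
  z1 : ∀ k, M.e0 ≤ M.z k
  z2 : ∀ k l a, l ≠ k → M.push l a (M.z k) ≤ M.z k

variable {M : Sys L}

theorem push_mono {k : K'} {a : Γ'} {y y' : L} (h : y ≤ y') : M.push k a y ≤ M.push k a y' := by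
  unfold push; gcongr

theorem pop_mono {k : K'} {a : Γ'} {y y' : L} (h : y ≤ y') : M.pop k a y ≤ M.pop k a y' := by
  unfold pop; gcongr

theorem push_le (k : K') (a : Γ') (y : L) : M.push k a y ≤ M.a0 := inf_le_right

theorem pushL_cons (k : K') (a : Γ') (l : List Γ') (y : L) :
    M.pushL k (a :: l) y = M.push k a (M.pushL k l y) := rfl

theorem pushL_nil (k : K') (y : L) : M.pushL k [] y = y := rfl

theorem pushL_le {k : K'} {l : List Γ'} {y : L} (h : y ≤ M.a0) : M.pushL k l y ≤ M.a0 := by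
  cases l with
  | nil => exact h
  | cons a l => exact push_le _ _ _

variable [IsModularLattice L] [OrderBot L]

theorem app_c_push (hM : Base M) {k : K'} {a : Γ'} {y : L} :
    (M.push k a y ⊔ M.c) ⊓ M.a1 = (y ⊔ M.s k a) ⊓ M.a1 :=
  gl inf_le_right hM.g1 hM.g2

theorem pop_push (hM : Base M) {k : K'} {a : Γ'} {y : L} (hy : y ≤ M.a0) :
    M.pop k a (M.push k a y) = y := by
  unfold pop
  rw [app_c_push hM]
  exact gl hy (hM.s1 k a) (hM.s4 k a)

theorem pop_bot (hM : Base M) {k : K'} {a : Γ'} : M.pop k a ⊥ = ⊥ := by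
  unfold pop
  rw [bot_sup_eq, hM.g2, bot_sup_eq, hM.s4]

theorem eq_bot_of_push (hM : Base M) {k : K'} {a : Γ'} {y : L} (hy : y ≤ M.a0)
    (h : M.push k a y = ⊥) : y = ⊥ := by
  rw [← pop_push hM hy (k := k) (a := a), h, pop_bot hM]

theorem eq_bot_of_pushL (hM : Base M) {k : K'} {l : List Γ'} {y : L} (hy : y ≤ M.a0)
    (h : M.pushL k l y = ⊥) : y = ⊥ := by
  induction l with
  | nil => exact h
  | cons a l ih => exact ih (eq_bot_of_push hM (pushL_le hy) h)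

theorem push_comm (hM : Base M) {k l : K'} (hkl : k ≠ l) {a b : Γ'} {y : L} (hy : y ≤ M.a0) :
    M.push k a (M.push l b y) = M.push l b (M.push k a y) := by
  have key : ((M.push l b y ⊔ M.s k a) ⊓ M.a1) = ((M.push k a y ⊔ M.s l b) ⊓ M.a1) := by
    have e1 : ((((y ⊔ M.s l b) ⊓ M.a1) ⊔ M.s' k a) ⊓ M.a2) =
        ((((y ⊔ M.s k a) ⊓ M.a1) ⊔ M.s' l b) ⊓ M.a2) := by
      rw [comp_apply hy (hM.g9 l b) (hM.g10 k a) hM.g5,
        comp_apply hy (hM.g9 k a) (hM.g10 l b) hM.g5]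
      have := hM.s2 k a l b hkl
      unfold comp at this
      rw [this]
    have e2 : ∀ (k : K') (a : Γ') (y : L), y ≤ M.a0 →
        (((y ⊔ M.c) ⊓ M.a1) ⊔ M.s' k a) ⊓ M.a2 = (((y ⊔ M.s k a) ⊓ M.a1) ⊔ M.c') ⊓ M.a2 := by
      intro k a y hy
      rw [comp_apply hy hM.g7 (hM.g10 k a) hM.g5, comp_apply hy (hM.g9 k a) hM.g8 hM.g5]
      have := hM.s3 k a
      unfold comp at this
      rw [this]
    have e3 := e2 k a (M.push l b y) (push_le _ _ _)
    rw [app_c_push hM] at e3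
    have e4 := e2 l b (M.push k a y) (push_le _ _ _)
    rw [app_c_push hM] at e4
    have e5 : (((M.push l b y ⊔ M.s k a) ⊓ M.a1) ⊔ M.c') ⊓ M.a2 =
        (((M.push k a y ⊔ M.s l b) ⊓ M.a1) ⊔ M.c') ⊓ M.a2 := by
      rw [← e3, ← e4, e1]
    have e6 := gl (x := (M.push l b y ⊔ M.s k a) ⊓ M.a1) (q := M.a2) (c := M.c') inf_le_right
      hM.g4 hM.g4'
    have e7 := gl (x := (M.push k a y ⊔ M.s l b) ⊓ M.a1) (q := M.a2) (c := M.c') inf_le_right
      hM.g4 hM.g4'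
    rw [← e6, ← e7, e5]
  show (((M.push l b y ⊔ M.s k a) ⊓ M.a1) ⊔ M.c) ⊓ M.a0 =
    (((M.push k a y ⊔ M.s l b) ⊓ M.a1) ⊔ M.c) ⊓ M.a0
  rw [key]

theorem push_pushL (hM : Base M) {k l : K'} (hkl : k ≠ l) {a : Γ'} {w : List Γ'} {y : L}
    (hy : y ≤ M.a0) : M.push k a (M.pushL l w y) = M.pushL l w (M.push k a y) := by
  induction w with
  | nil => rfl
  | cons b w ih =>
    rw [pushL_cons, pushL_cons, ← ih, push_comm hM hkl (pushL_le hy)]

theorem E_le (hM : Base M) (S : Stk) : M.E S ≤ M.a0 :=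
  pushL_le (pushL_le (pushL_le (pushL_le hM.g6)))

theorem E_psh (hM : Base M) (k : K') (a : Γ') (S : Stk) :
    M.E (psh k a S) = M.push k a (M.E S) := by
  have h0 := hM.g6
  cases k with
  | main => simp [E, psh, pushL_cons]
  | rev =>
    simp only [E, psh, Function.update_self, pushL_cons, ne_eq, reduceCtorEq, not_false_eq_true,
      Function.update_of_ne]
    rw [push_pushL hM (by decide) (pushL_le (pushL_le (pushL_le h0)))]
  | aux =>
    simp only [E, psh, Function.update_self, pushL_cons, ne_eq, reduceCtorEq, not_false_eq_true,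
      Function.update_of_ne]
    rw [push_pushL hM (by decide) (pushL_le (pushL_le (pushL_le h0))),
      push_pushL hM (by decide) (pushL_le (pushL_le h0))]
  | stack =>
    simp only [E, psh, Function.update_self, pushL_cons, ne_eq, reduceCtorEq, not_false_eq_true,
      Function.update_of_ne]
    rw [push_pushL hM (by decide) (pushL_le (pushL_le (pushL_le h0))),
      push_pushL hM (by decide) (pushL_le (pushL_le h0)),
      push_pushL hM (by decide) (pushL_le h0)]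

theorem pushL_le_z (hM : Base M) {k l : K'} (hkl : l ≠ k) {w : List Γ'} {y : L}
    (hy : y ≤ M.z k) : M.pushL l w y ≤ M.z k := by
  induction w with
  | nil => exact hy
  | cons b w ih => exact (push_mono ih).trans (hM.z2 k l b hkl)

theorem E_le_z (hM : Base M) {k : K'} {S : Stk} (h : S k = []) : M.E S ≤ M.z k := by
  have aux : ∀ (l : K') (y : L), y ≤ M.z k → M.pushL l (S l) y ≤ M.z k := by
    intro l y hy
    by_cases hl : l = k
    · subst hl; rw [h]; exact hy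
    · exact pushL_le_z hM hl hy
  exact aux _ _ (aux _ _ (aux _ _ (aux _ _ (hM.z1 k))))

theorem eq_bot_of_E (hM : Base M) {S : Stk} (h : M.E S = ⊥) : M.e0 = ⊥ := by
  have h0 := hM.g6
  exact eq_bot_of_pushL hM h0 (eq_bot_of_pushL hM (pushL_le h0)
    (eq_bot_of_pushL hM (pushL_le (pushL_le h0))
      (eq_bot_of_pushL hM (pushL_le (pushL_le (pushL_le h0))) h)))

/-- In every solution the elements coding reachable configurations are below the `d q`. -/
theorem reach_le (hM : Base M) {R : List (ℕ × Op × ℕ)}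
    (hR : ∀ r ∈ R, M.OpHolds (M.d r.1) r.2.1 (M.d r.2.2))
    {x y : ℕ × Stk} (h : Reach R x y) (hx : M.E x.2 ≤ M.d x.1) : M.E y.2 ≤ M.d y.1 := by
  induction h with
  | refl => exact hx
  | @tail y w _ hw ih =>
    obtain ⟨⟨q, op, q'⟩, hr, h1, h2, h3⟩ := hw
    obtain ⟨yq, T⟩ := y
    obtain ⟨wq, T'⟩ := w
    simp only at h1 h2 h3 ih ⊢
    subst h1
    subst h2
    have hh := hR _ hr
    simp only at hh
    cases op with
    | push k a =>
      have h3 : T' = psh k a T := h3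
      subst h3
      rw [E_psh hM]
      exact (push_mono ih).trans hh
    | pop k a =>
      have h3 : T = psh k a T' := h3
      subst h3
      rw [E_psh hM] at ih
      have h4 := pop_mono (M := M) (k := k) (a := a) ih
      rw [pop_push hM (E_le hM T')] at h4
      exact h4.trans hh
    | peek k a =>
      obtain ⟨⟨T₀, h4⟩, h5⟩ : (∃ S₀, T = psh k a S₀) ∧ T' = T := h3
      subst h5
      subst h4
      rw [E_psh hM] at ih ⊢
      have h4 := pop_mono (M := M) (k := k) (a := a) ih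
      rw [pop_push hM (E_le hM T₀)] at h4
      exact (push_mono h4).trans hh
    | empty k =>
      obtain ⟨h4, h5⟩ : T k = [] ∧ T' = T := h3
      subst h5
      exact (le_inf (E_le_z hM h4) ih).trans hh
    | nop =>
      have h3 : T' = T := h3
      subst h3
      exact ih.trans hh

end Sys

end Pool.Agent.Lib.MP_8d6ead_lc
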