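import Pool.Agent.Lib.MP_8d6ead_lc.Defs
import Pool.Agent.Lib.MP_8d6ead_lc.LatA

/-!
# The sentences coding computations
-/

namespace Pool.Agent.Lib.MP_8d6ead_lc

open Turing PartrecToTM2 Relation

/-- index of a stack -/
def ik : K' → ℕ
  | .main => 0
  | .rev => 1
  | .aux => 2
  | .stack => 3

/-- index of a symbol -/
def ia : Γ' → ℕ
  | .consₗ => 0
  | .cons => 1
  | .bit0 => 2
  | .bit1 => 3

def kk : ℕ → K'
  | 0 => .main
  | 1 => .rev
  | 2 => .aux
  | _ => .stack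

def aa : ℕ → Γ'
  | 0 => .consₗ
  | 1 => .cons
  | 2 => .bit0
  | _ => .bit1

namespace Tm

def A0 : Tm := var 0
def A1 : Tm := var 1
def A2 : Tm := var 2
def C : Tm := var 3
def C' : Tm := var 4
def E0 : Tm := var 5
def Z (k : K') : Tm := var (6 + ik k)
def S (k : K') (a : Γ') : Tm := var (10 + (4 * ik k + ia a))
def S' (k : K') (a : Γ') : Tm := var (26 + (4 * ik k + ia a))
def D (j : ℕ) : Tm := var (42 + j)

def push (k : K') (a : Γ') (t : Tm) : Tm := inf (sup (inf (sup t (S k a)) A1) C) A0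
def pop (k : K') (a : Γ') (t : Tm) : Tm := inf (sup (inf (sup t C) A1) (S k a)) A0
def comp (r t : Tm) : Tm := inf (sup t r) (sup A0 A2)

/-- the equation expressing `s ≤ t` -/
def le (s t : Tm) : Tm × Tm := (inf s t, s)

end Tm

/-- the equation expressing a rule -/
def ruleEq (r : ℕ × Op × ℕ) : Tm × Tm :=
  match r.2.1 with
  | .push k a => Tm.le (Tm.push k a (Tm.D r.1)) (Tm.D r.2.2)
  | .pop k a => Tm.le (Tm.pop k a (Tm.D r.1)) (Tm.D r.2.2)
  | .peek k a => Tm.le (Tm.push k a (Tm.pop k a (Tm.D r.1))) (Tm.D r.2.2)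
  | .empty k => Tm.le (Tm.inf (Tm.Z k) (Tm.D r.1)) (Tm.D r.2.2)
  | .nop => Tm.le (Tm.D r.1) (Tm.D r.2.2)

/-- list of all stacks -/
def stks : List K' := [K'.main, K'.rev, K'.aux, K'.stack]

theorem mem_stks (k : K') : k ∈ stks := by cases k <;> simp [stks]

/-- all pairs (stack, symbol) -/
def prs : List (K' × Γ') := stks.flatMap fun k => syms.map fun a => (k, a)

theorem mem_prs (p : K' × Γ') : p ∈ prs := by
  unfold prs
  rw [List.mem_flatMap]
  exact ⟨p.1, mem_stks _, List.mem_map.2 ⟨p.2, mem_syms _, rfl⟩⟩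

open Tm in
/-- the equations of the base system -/
def baseEqs : List (Tm × Tm) :=
  [le A1 (sup A0 C), (inf C A1, zero), le A0 (sup A1 C), (inf C A0, zero), le A1 (sup A2 C'),
   (inf C' A1, zero), le (inf (sup A0 A1) (sup A1 A2)) A1, le E0 A0, le C (sup A0 A1),
   le C' (sup A1 A2)] ++
  (prs.map fun p => le (S p.1 p.2) (sup A0 A1)) ++
  (prs.map fun p => le (S' p.1 p.2) (sup A1 A2)) ++
  (prs.map fun p => le A0 (sup A1 (S p.1 p.2))) ++
  (prs.map fun p => (inf (S p.1 p.2) A0, zero)) ++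
  (prs.flatMap fun p => prs.map fun p' =>
    if p.1 = p'.1 then (zero, zero) else
      (comp (S' p.1 p.2) (S p'.1 p'.2), comp (S' p'.1 p'.2) (S p.1 p.2))) ++
  (prs.map fun p => (comp (S' p.1 p.2) C, comp C' (S p.1 p.2))) ++
  (stks.map fun k => le E0 (Z k)) ++
  (stks.flatMap fun k => prs.map fun p =>
    if p.1 = k then (zero, zero) else le (push p.1 p.2 (Z k)) (Z k))

/-- all the equations for a rule system -/
def allEqs (R : List (ℕ × Op × ℕ)) (qh : ℕ) : List (Tm × Tm) :=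
  baseEqs ++ R.map ruleEq ++ [(Tm.D qh, Tm.zero)]

/-- conjunction of equations -/
def conj : List (Tm × Tm) → Fm
  | [] => Fm.eq Tm.zero Tm.zero
  | p :: l => Fm.and (Fm.eq p.1 p.2) (conj l)

/-- the term coding the input -/
def inTm (l : List Γ') : Tm := l.foldr (fun a t => Tm.push K'.main a t) Tm.E0

/-- the quantifier-free formula coding halting on input `l` -/
def psi (R : List (ℕ × Op × ℕ)) (q₀ qh : ℕ) (l : List Γ') : Fm :=
  Fm.neg (Fm.and (Fm.eq (Tm.inf (inTm l) (Tm.D q₀)) (inTm l))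
    (Fm.and (conj (allEqs R qh)) (Fm.neg (Fm.eq Tm.E0 Tm.zero))))

section semantics

variable {L : Type*} [Lattice L] [BoundedOrder L]

/-- the system given by an assignment -/
def sysOf (x : ℕ → L) : Sys L where
  a0 := x 0
  a1 := x 1
  a2 := x 2
  c := x 3
  c' := x 4
  e0 := x 5
  z k := x (6 + ik k)
  s k a := x (10 + (4 * ik k + ia a))
  s' k a := x (26 + (4 * ik k + ia a))
  d j := x (42 + j)

/-- the assignment given by a system -/
def asg (M : Sys L) : ℕ → L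
  | 0 => M.a0
  | 1 => M.a1
  | 2 => M.a2
  | 3 => M.c
  | 4 => M.c'
  | 5 => M.e0
  | n + 6 => if n < 4 then M.z (kk n) else
      if n < 20 then M.s (kk ((n - 4) / 4)) (aa ((n - 4) % 4)) else
      if n < 36 then M.s' (kk ((n - 20) / 4)) (aa ((n - 20) % 4)) else M.d (n - 36)

omit [Lattice L] [BoundedOrder L] in
theorem asg_d (M : Sys L) (j : ℕ) : asg M (42 + j) = M.d j := by
  rw [show 42 + j = (36 + j) + 6 by ring]
  simp only [asg]
  rw [if_neg (by omega), if_neg (by omega), if_neg (by omega)]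
  congr 1; omega

omit [Lattice L] [BoundedOrder L] in
theorem asg_z (M : Sys L) (k : K') : asg M (6 + ik k) = M.z k := by
  cases k <;> rfl

omit [Lattice L] [BoundedOrder L] in
theorem asg_s (M : Sys L) (k : K') (a : Γ') : asg M (10 + (4 * ik k + ia a)) = M.s k a := by
  cases k <;> cases a <;> rfl

omit [Lattice L] [BoundedOrder L] in
theorem asg_s' (M : Sys L) (k : K') (a : Γ') : asg M (26 + (4 * ik k + ia a)) = M.s' k a := by
  cases k <;> cases a <;> rfl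

theorem eval_le {x : ℕ → L} {s t : Tm} :
    (Tm.le s t).1.eval x = (Tm.le s t).2.eval x ↔ s.eval x ≤ t.eval x := by
  simp [Tm.le, Tm.eval]

theorem conj_holds {x : ℕ → L} {l : List (Tm × Tm)} :
    (conj l).Holds x ↔ ∀ p ∈ l, p.1.eval x = p.2.eval x := by
  induction l with
  | nil => simp [conj, Fm.Holds]
  | cons p l ih => simp [conj, Fm.Holds, ih]

theorem eval_push {x : ℕ → L} {k : K'} {a : Γ'} {t : Tm} :
    (Tm.push k a t).eval x = (sysOf x).push k a (t.eval x) := rfl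

theorem eval_pop {x : ℕ → L} {k : K'} {a : Γ'} {t : Tm} :
    (Tm.pop k a t).eval x = (sysOf x).pop k a (t.eval x) := rfl

theorem eval_comp {x : ℕ → L} {r t : Tm} :
    (Tm.comp r t).eval x = (sysOf x).comp (r.eval x) (t.eval x) := rfl

theorem ruleEq_iff {x : ℕ → L} {r : ℕ × Op × ℕ} :
    (ruleEq r).1.eval x = (ruleEq r).2.eval x ↔
      (sysOf x).OpHolds ((sysOf x).d r.1) r.2.1 ((sysOf x).d r.2.2) := by
  obtain ⟨q, op, q'⟩ := r
  cases op <;> simp only [ruleEq, eval_le] <;> rfl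

theorem base_of_eqs {x : ℕ → L} (h : ∀ p ∈ baseEqs, p.1.eval x = p.2.eval x) :
    (sysOf x).Base := by
  simp only [baseEqs, List.mem_append, List.mem_cons, List.mem_map, List.mem_flatMap,
    List.not_mem_nil, or_false] at h
  constructor
  · exact eval_le.1 (h (Tm.le Tm.A1 (Tm.sup Tm.A0 Tm.C)) (by simp))
  · exact h (Tm.inf Tm.C Tm.A1, Tm.zero) (by simp)
  · exact eval_le.1 (h (Tm.le Tm.A0 (Tm.sup Tm.A1 Tm.C)) (by simp))
  · exact h (Tm.inf Tm.C Tm.A0, Tm.zero) (by simp)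
  · exact eval_le.1 (h (Tm.le Tm.A1 (Tm.sup Tm.A2 Tm.C')) (by simp))
  · exact h (Tm.inf Tm.C' Tm.A1, Tm.zero) (by simp)
  · exact eval_le.1 (h (Tm.le (Tm.inf (Tm.sup Tm.A0 Tm.A1) (Tm.sup Tm.A1 Tm.A2)) Tm.A1) (by simp))
  · exact eval_le.1 (h (Tm.le Tm.E0 Tm.A0) (by simp))
  · exact eval_le.1 (h (Tm.le Tm.C (Tm.sup Tm.A0 Tm.A1)) (by simp))
  · exact eval_le.1 (h (Tm.le Tm.C' (Tm.sup Tm.A1 Tm.A2)) (by simp))
  · intro k a
    refine eval_le.1 (h (Tm.le (Tm.S k a) (Tm.sup Tm.A0 Tm.A1)) ?_)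
    exact Or.inl (Or.inl (Or.inl (Or.inl (Or.inl (Or.inl (Or.inl (Or.inr ⟨(k, a), mem_prs _, rfl⟩)))))))
  · intro k a
    refine eval_le.1 (h (Tm.le (Tm.S' k a) (Tm.sup Tm.A1 Tm.A2)) ?_)
    exact Or.inl (Or.inl (Or.inl (Or.inl (Or.inl (Or.inl (Or.inr ⟨(k, a), mem_prs _, rfl⟩))))))
  · intro k a
    refine eval_le.1 (h (Tm.le Tm.A0 (Tm.sup Tm.A1 (Tm.S k a))) ?_)
    exact Or.inl (Or.inl (Or.inl (Or.inl (Or.inl (Or.inr ⟨(k, a), mem_prs _, rfl⟩)))))
  · intro k a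
    refine h (Tm.inf (Tm.S k a) Tm.A0, Tm.zero) ?_
    exact Or.inl (Or.inl (Or.inl (Or.inl (Or.inr ⟨(k, a), mem_prs _, rfl⟩))))
  · intro k a l b hkl
    refine h (Tm.comp (Tm.S' k a) (Tm.S l b), Tm.comp (Tm.S' l b) (Tm.S k a)) ?_
    refine Or.inl (Or.inl (Or.inl (Or.inr ⟨(k, a), mem_prs _, (l, b), mem_prs _, ?_⟩)))
    rw [if_neg hkl]
  · intro k a
    refine h (Tm.comp (Tm.S' k a) Tm.C, Tm.comp Tm.C' (Tm.S k a)) ?_
    exact Or.inl (Or.inl (Or.inr ⟨(k, a), mem_prs _, rfl⟩))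
  · intro k
    refine eval_le.1 (h (Tm.le Tm.E0 (Tm.Z k)) ?_)
    exact Or.inl (Or.inr ⟨k, mem_stks _, rfl⟩)
  · intro k l a hkl
    refine eval_le.1 (h (Tm.le (Tm.push l a (Tm.Z k)) (Tm.Z k)) ?_)
    refine Or.inr ⟨k, mem_stks _, (l, a), mem_prs _, ?_⟩
    rw [if_neg hkl]

theorem eqs_of_base {x : ℕ → L} (h : (sysOf x).Base) :
    ∀ p ∈ baseEqs, p.1.eval x = p.2.eval x := by
  intro p hp
  simp only [baseEqs, List.mem_append, List.mem_cons, List.mem_map, List.mem_flatMap,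
    List.not_mem_nil, or_false] at hp
  rcases hp with (((((((hp | hp) | hp) | hp) | hp) | hp) | hp) | hp) | hp
  · rcases hp with rfl | rfl | rfl | rfl | rfl | rfl | rfl | rfl | rfl | rfl
    · exact eval_le.2 h.g1
    · exact h.g2
    · exact eval_le.2 h.g3
    · exact h.g3'
    · exact eval_le.2 h.g4
    · exact h.g4'
    · exact eval_le.2 h.g5
    · exact eval_le.2 h.g6
    · exact eval_le.2 h.g7
    · exact eval_le.2 h.g8
  · obtain ⟨p, _, rfl⟩ := hp
    exact eval_le.2 (h.g9 _ _)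
  · obtain ⟨p, _, rfl⟩ := hp
    exact eval_le.2 (h.g10 _ _)
  · obtain ⟨p, _, rfl⟩ := hp
    exact eval_le.2 (h.s1 _ _)
  · obtain ⟨p, _, rfl⟩ := hp
    exact h.s4 _ _
  · obtain ⟨p, _, p', _, rfl⟩ := hp
    by_cases hpp : p.1 = p'.1
    · rw [if_pos hpp]
    · rw [if_neg hpp]
      exact h.s2 _ _ _ _ hpp
  · obtain ⟨p, _, rfl⟩ := hp
    exact h.s3 _ _
  · obtain ⟨k, _, rfl⟩ := hp
    exact eval_le.2 (h.z1 _)
  · obtain ⟨k, _, p, _, rfl⟩ := hp
    by_cases hpp : p.1 = k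
    · rw [if_pos hpp]
    · rw [if_neg hpp]
      exact eval_le.2 (h.z2 _ _ _ hpp)

theorem eval_inTm {x : ℕ → L} {l : List Γ'} : (inTm l).eval x = (sysOf x).E (stk0 l) := by
  show _ = (sysOf x).pushL K'.main l (sysOf x).e0
  induction l with
  | nil => rfl
  | cons a l ih =>
    rw [Sys.pushL_cons, ← ih]
    rfl

/-- Meaning of the formula `psi`. -/
theorem psi_holds {x : ℕ → L} {R : List (ℕ × Op × ℕ)} {q₀ qh : ℕ} {l : List Γ'} :
    (psi R q₀ qh l).Holds x ↔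
      ((sysOf x).E (stk0 l) ≤ (sysOf x).d q₀ → (sysOf x).Base →
        (∀ r ∈ R, (sysOf x).OpHolds ((sysOf x).d r.1) r.2.1 ((sysOf x).d r.2.2)) →
        (sysOf x).d qh = ⊥ → (sysOf x).e0 = ⊥) := by
  have h1 : (Fm.eq (Tm.inf (inTm l) (Tm.D q₀)) (inTm l)).Holds x ↔
      (sysOf x).E (stk0 l) ≤ (sysOf x).d q₀ := by
    simp only [Fm.Holds, Tm.eval, eval_inTm, inf_eq_left]
    rfl
  have h2 : (conj (allEqs R qh)).Holds x ↔ ((sysOf x).Base ∧
        (∀ r ∈ R, (sysOf x).OpHolds ((sysOf x).d r.1) r.2.1 ((sysOf x).d r.2.2)) ∧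
        (sysOf x).d qh = ⊥) := by
    rw [conj_holds]
    constructor
    · intro h
      refine ⟨base_of_eqs fun p hp => h p (by simp [allEqs, hp]), fun r hr => ?_, ?_⟩
      · exact ruleEq_iff.1 (h (ruleEq r) (by
          simp only [allEqs, List.mem_append, List.mem_map]
          exact Or.inl (Or.inr ⟨r, hr, rfl⟩)))
      · exact h (Tm.D qh, Tm.zero) (by simp [allEqs])
    · rintro ⟨hb, hr, hh⟩ p hp
      simp only [allEqs, List.mem_append, List.mem_map, List.mem_singleton] at hp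
      rcases hp with (hp | ⟨r, hr', rfl⟩) | rfl
      · exact eqs_of_base hb p hp
      · exact ruleEq_iff.2 (hr r hr')
      · exact hh
  have h3 : (Fm.eq Tm.E0 Tm.zero).Holds x ↔ (sysOf x).e0 = ⊥ := Iff.rfl
  show ¬ (_ ∧ (_ ∧ ¬ _)) ↔ _
  rw [h1, h2, h3]
  tauto

end semantics

end Pool.Agent.Lib.MP_8d6ead_lc
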