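import Pool.Agent.Lib.MP_8d6ead_lc.Transfer

/-!
# Undecidability
-/

namespace Pool.Agent.Lib.MP_8d6ead_lc

open Turing PartrecToTM2 Relation Encodable

/-- If the rule system halts then the formula holds in every bounded modular lattice. -/
theorem psi_of_reach {L : Type*} [Lattice L] [IsModularLattice L] [BoundedOrder L]
    {R : List (ℕ × Op × ℕ)} {q₀ qh : ℕ} {l : List Γ'}
    (h : ∃ T, Reach R (q₀, stk0 l) (qh, T)) (x : ℕ → L) : (psi R q₀ qh l).Holds x := by
  rw [psi_holds]
  intro hE hB hR hh
  obtain ⟨T, hT⟩ := h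
  have h1 := Sys.reach_le hB hR hT hE
  simp only at h1
  rw [hh, le_bot_iff] at h1
  exact Sys.eq_bot_of_E hB h1

theorem sysOf_asg {L : Type*} (M : Sys L) : sysOf (asg M) = M := by
  obtain ⟨a0, a1, a2, c, c', e0, z, s, s', d⟩ := M
  simp only [sysOf, Sys.mk.injEq]
  refine ⟨rfl, rfl, rfl, rfl, rfl, rfl, ?_, ?_, ?_, ?_⟩
  · funext k; exact asg_z _ k
  · funext k a; exact asg_s _ k a
  · funext k a; exact asg_s' _ k a
  · funext j; exact asg_d _ j

theorem ik_lt (k : K') : ik k < 4 := by cases k <;> simp [ik]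

theorem ia_lt (a : Γ') : ia a < 4 := by cases a <;> simp [ia]

theorem sysOf_agree {L : Type*} {x y : ℕ → L} (h : ∀ i < 42, y i = x i) :
    sysOf y = {sysOf x with d := fun j => y (42 + j)} := by
  simp only [sysOf, Sys.mk.injEq]
  refine ⟨h _ (by norm_num), h _ (by norm_num), h _ (by norm_num), h _ (by norm_num),
    h _ (by norm_num), h _ (by norm_num), ?_, ?_, ?_, trivial⟩
  · funext k; have := ik_lt k; exact h _ (by omega)
  · funext k a; have := ik_lt k; have := ia_lt a; exact h _ (by omega)
  · funext k a; have := ik_lt k; have := ia_lt a; exact h _ (by omega)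

/-- number of universally quantified variables -/
def nvars (R : List (ℕ × Op × ℕ)) (q₀ qh : ℕ) : ℕ :=
  43 + q₀ + qh + (R.map fun r => r.1 + r.2.2).sum

theorem nvars_rule {R : List (ℕ × Op × ℕ)} {q₀ qh : ℕ} {r} (hr : r ∈ R) :
    42 + r.1 < nvars R q₀ qh ∧ 42 + r.2.2 < nvars R q₀ qh := by
  have h : r.1 + r.2.2 ≤ (R.map fun r => r.1 + r.2.2).sum :=
    List.single_le_sum (by simp) _ (List.mem_map.2 ⟨r, hr, rfl⟩)
  unfold nvars
  omega

section undec

variable {F V : Type} [Field F] [AddCommGroup V] [Module F V] [Primcodable F] [Primcodable V]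
  [ComputableVectorSpace F V]

/-- If the rule system does not halt then the sentence fails in `L*(V)`. -/
theorem not_true_of_not_reach {b : ℕ → V} (hb : LinearIndependent F b) (hc : Computable b)
    {R : List (ℕ × Op × ℕ)} {q₀ qh : ℕ} {l : List Γ'}
    (h : ¬ ∃ T, Reach R (q₀, stk0 l) (qh, T)) :
    ¬ AESentence.TrueIn (LStar F V) ⟨nvars R q₀ qh, psi R q₀ qh l⟩ := by
  let X : ℕ → Set Stk := fun q => {S | Reach R (q₀, stk0 l) (q, S)}
  have hX : ∀ q, REPred fun v : V => v ∈ (J0 (supp F (X q))).map (Phi F b) := by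
    intro q
    refine re_J0_enum hc (τ := List ℕ)
      (fun t => (run R (q₀, stk0 l) t).bind fun c => if c.1 = q then some c.2 else none) ?_ ?_
    · refine Primrec.to_comp (Primrec.option_bind (run_primrec _ _) ?_)
      exact (Primrec.ite (Primrec.eq.comp (Primrec.fst.comp Primrec.snd) (Primrec.const q))
        (Primrec.option_some.comp (Primrec.snd.comp Primrec.snd)) (Primrec.const none)).to₂
    · intro S
      show Reach R (q₀, stk0 l) (q, S) ↔ _
      rw [reach_iff]
      refine exists_congr fun t => ?_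
      rcases run R (q₀, stk0 l) t with _ | ⟨q', S'⟩
      · simp
      · simp
  have hZ : ∀ k : K', REPred fun v : V => v ∈ (J0 (supp F {S : Stk | S k = []})).map (Phi F b) := by
    intro k
    refine re_J0_enum hc (τ := Stk) (fun S => if (S k).head? = none then some S else none) ?_ ?_
    · exact (Primrec.ite (Primrec.eq.comp (Primrec.list_head?.comp (get_primrec k))
        (Primrec.const none)) Primrec.option_some (Primrec.const none)).to_comp
    · intro S
      simp only [Set.mem_ofPred_eq, List.head?_eq_none_iff, Option.ite_none_right_eq_some,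
        Option.some.injEq]
      constructor
      · intro h; exact ⟨S, h, rfl⟩
      · rintro ⟨t, ht, rfl⟩; exact ht
  have h0 : REPred fun v : V => v ∈ (J0 (supp F {stk0 []})).map (Phi F b) := by
    refine re_J0_enum hc (τ := Unit) (fun _ => some (stk0 [])) (Computable.const _) ?_
    intro S
    simp [eq_comm]
  have hclosed : Closed R X := by
    intro r hr S S' hS hSS'
    exact ReflTransGen.tail hS ⟨r, hr, rfl, rfl, hSS'⟩
  let MK := mdlK hb hc X hX hZ h0
  have hmap : MK.map (fun W : KK b hb => (W : Submodule F (NN F × NN F × NN F))) = mdl F X := rfl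
  have hbase : MK.Base := Sys.Base.reflect (lhom_val b hb) Subtype.val_injective (mdl_base X)
  have hrules : ∀ r ∈ R, MK.OpHolds (MK.d r.1) r.2.1 (MK.d r.2.2) := fun r hr =>
    Sys.reflect_opHolds (lhom_val b hb) Subtype.val_injective (mdl_rules hclosed r hr)
  have hstart : MK.E (stk0 l) ≤ MK.d q₀ := by
    refine (lhom_val b hb).reflect Subtype.val_injective ?_
    rw [← Sys.map_E (lhom_val b hb)]
    exact mdl_start (F := F) (X := X) ReflTransGen.refl
  have hhalt : MK.d qh = ⊥ := by
    apply Subtype.val_injective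
    have : X qh = ∅ := by
      ext S
      simp only [Set.mem_empty_iff_false, iff_false]
      intro hS
      exact h ⟨S, hS⟩
    exact mdl_halt (F := F) this
  let MS := MK.map (toStar b hb)
  have hlh := lhom_toStar (F := F) b hb
  have hbaseS : MS.Base := Sys.Base.map hlh hbase
  intro htrue
  obtain ⟨y, hy1, hy2⟩ := htrue (asg MS)
  simp only at hy1 hy2
  rw [psi_holds] at hy2
  have hys : sysOf y = {MS with d := fun j => y (42 + j)} := by
    rw [sysOf_agree (x := asg MS) (fun i hi => hy1 i (by unfold nvars; omega)), sysOf_asg]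
  have hyd : ∀ j, 42 + j < nvars R q₀ qh → (sysOf y).d j = MS.d j := by
    intro j hj
    show y (42 + j) = MS.d j
    rw [hy1 _ hj, asg_d]
  have hE : (sysOf y).E (stk0 l) ≤ (sysOf y).d q₀ := by
    rw [hyd q₀ (by unfold nvars; omega), hys]
    show MS.E (stk0 l) ≤ MS.d q₀
    rw [Sys.map_E hlh]
    exact hlh.mono hstart
  have hB : (sysOf y).Base := by
    rw [hys]; exact hbaseS.change _
  have hR : ∀ r ∈ R, (sysOf y).OpHolds ((sysOf y).d r.1) r.2.1 ((sysOf y).d r.2.2) := by
    intro r hr
    rw [hyd _ (nvars_rule hr).1, hyd _ (nvars_rule hr).2, hys]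
    have h1 := Sys.map_opHolds hlh (hrules r hr)
    obtain ⟨q, op, q'⟩ := r
    cases op <;> exact h1
  have hH : (sysOf y).d qh = ⊥ := by
    rw [hyd qh (by unfold nvars; omega)]
    show toStar b hb (MK.d qh) = ⊥
    rw [hhalt, hlh.bot]
  have h3 := hy2 hE hB hR hH
  rw [hys] at h3
  have h4 : toStar b hb MK.e0 = ⊥ := h3
  have h5 : AlmostEq ((J0 (supp F {stk0 []})).map (Phi F b)) ⊥ := Quotient.exact h4
  exact infinite_dim hb {stk0 []} (stk0 []) rfl (finiteDimensional_of_almostEq_bot h5)

/-- The `∀∃` theory of `L*(V)` is undecidable. -/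
theorem undecidable (hdep : HasDependenceAlgorithm F V) (hinf : ¬ FiniteDimensional F V) :
    ¬ AETheoryDecidable (LStar F V) := by
  rintro ⟨f, hf, hdec⟩
  obtain ⟨b, hc, hb⟩ := exists_indep_seq hdep hinf
  let g : ℕ →. ℕ := fun n => (Denumerable.ofNat Nat.Partrec.Code n).eval 0
  have hg : Partrec g :=
    Nat.Partrec.Code.eval_part.comp (Computable.ofNat _) (Computable.const 0)
  obtain ⟨R, q₀, qh, hR⟩ := exists_rules_nat g hg
  have key : ∀ n, (g n).Dom ↔
      f (AESentence.code ⟨nvars R q₀ qh, psi R q₀ qh (trList [n])⟩) = true := by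
    intro n
    rw [hR n, hdec]
    constructor
    · intro h x
      exact ⟨x, fun _ _ => rfl, psi_of_reach h x⟩
    · intro h
      by_contra hcon
      exact not_true_of_not_reach hb hc hcon h
  have hcomp : Computable fun n : ℕ =>
      f (AESentence.code ⟨nvars R q₀ qh, psi R q₀ qh (trList [n])⟩) :=
    hf.comp (Primrec₂.natPair.comp (Primrec.const _) (psi_code_primrec R q₀ qh)).to_comp
  have h1 : ComputablePred fun c : Nat.Partrec.Code => (c.eval 0).Dom := by
    rw [ComputablePred.computable_iff]
    refine ⟨fun c => f (AESentence.code ⟨nvars R q₀ qh, psi R q₀ qh (trList [encode c])⟩),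
      hcomp.comp Computable.encode, ?_⟩
    funext c
    have := key (encode c)
    simp only [g, Denumerable.ofNat_encode] at this
    exact propext this
  exact ComputablePred.halting_problem 0 h1

end undec

end Pool.Agent.Lib.MP_8d6ead_lc
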