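import Pool.Agent.Lib.MP_8d6ead_lc.LatA

/-!
# The intended model
-/

namespace Pool.Agent.Lib.MP_8d6ead_lc

open Turing PartrecToTM2 Relation

section abstractPart

variable {F N : Type*} [Field F] [AddCommGroup N] [Module F N]

/-- first copy -/
def J0 (Y : Submodule F N) : Submodule F (N × N × N) := Y.prod ⊥

/-- second copy -/
def J1 (Y : Submodule F N) : Submodule F (N × N × N) := (⊥ : Submodule F N).prod (Y.prod ⊥)

/-- third copy -/
def J2 (Y : Submodule F N) : Submodule F (N × N × N) :=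
  (⊥ : Submodule F N).prod ((⊥ : Submodule F N).prod Y)

/-- graph between first and second copy -/
def G01 (f : N →ₗ[F] N) : Submodule F (N × N × N) where
  carrier := {x | x.2.1 = -f x.1 ∧ x.2.2 = 0}
  add_mem' := by
    rintro ⟨a, b, c⟩ ⟨a', b', c'⟩ ⟨h1, h2⟩ ⟨h3, h4⟩
    simp only at h1 h2 h3 h4
    subst h1 h2 h3 h4
    constructor
    · simp; abel
    · simp
  zero_mem' := by simp
  smul_mem' := by
    rintro r ⟨a, b, c⟩ ⟨h1, h2⟩
    simp only at h1 h2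
    subst h1 h2
    constructor <;> simp

/-- graph between second and third copy -/
def G12 (f : N →ₗ[F] N) : Submodule F (N × N × N) where
  carrier := {x | x.1 = 0 ∧ x.2.2 = -f x.2.1}
  add_mem' := by
    rintro ⟨a, b, c⟩ ⟨a', b', c'⟩ ⟨h1, h2⟩ ⟨h3, h4⟩
    simp only at h1 h2 h3 h4
    subst h1 h2 h3 h4
    constructor
    · simp
    · simp; abel
  zero_mem' := by simp
  smul_mem' := by
    rintro r ⟨a, b, c⟩ ⟨h1, h2⟩
    simp only at h1 h2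
    subst h1 h2
    constructor <;> simp

theorem mem_J0 {Y : Submodule F N} {x : N × N × N} :
    x ∈ J0 Y ↔ x.1 ∈ Y ∧ x.2.1 = 0 ∧ x.2.2 = 0 := by
  simp [J0, Submodule.mem_prod, Prod.ext_iff]

theorem mem_J1 {Y : Submodule F N} {x : N × N × N} :
    x ∈ J1 Y ↔ x.1 = 0 ∧ x.2.1 ∈ Y ∧ x.2.2 = 0 := by
  simp [J1, Submodule.mem_prod]

theorem mem_J2 {Y : Submodule F N} {x : N × N × N} :
    x ∈ J2 Y ↔ x.1 = 0 ∧ x.2.1 = 0 ∧ x.2.2 ∈ Y := by
  simp [J2, Submodule.mem_prod]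

theorem mem_G01 {f : N →ₗ[F] N} {x : N × N × N} :
    x ∈ G01 f ↔ x.2.1 = -f x.1 ∧ x.2.2 = 0 := Iff.rfl

theorem mem_G12 {f : N →ₗ[F] N} {x : N × N × N} :
    x ∈ G12 f ↔ x.1 = 0 ∧ x.2.2 = -f x.2.1 := Iff.rfl

theorem J0_mono {Y Y' : Submodule F N} (h : Y ≤ Y') : J0 Y ≤ J0 Y' := by
  intro x hx
  rw [mem_J0] at *
  exact ⟨h hx.1, hx.2⟩

theorem J0_inf (Y Y' : Submodule F N) : J0 Y ⊓ J0 Y' = J0 (Y ⊓ Y') := by
  ext x
  simp only [Submodule.mem_inf, mem_J0]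
  tauto

theorem J0_bot : J0 (⊥ : Submodule F N) = ⊥ := by
  ext ⟨a, b, c⟩
  simp [mem_J0]

theorem app_eq (Y : Submodule F N) (f : N →ₗ[F] N) :
    (J0 Y ⊔ G01 f) ⊓ J1 ⊤ = J1 (Y.map f) := by
  ext ⟨a, b, c⟩
  simp only [Submodule.mem_inf, Submodule.mem_sup, mem_J0, mem_J1, mem_G01, Submodule.mem_map,
    Prod.exists, Prod.mk_add_mk, Prod.mk.injEq, Submodule.mem_top, true_and]
  constructor
  · rintro ⟨⟨u, u1, u2, ⟨hu, rfl, rfl⟩, w, w1, w2, ⟨rfl, rfl⟩, rfl, rfl, rfl⟩, h1, -⟩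
    refine ⟨h1, ⟨u, hu, ?_⟩, by simp⟩
    have : w = -u := by rw [eq_neg_iff_add_eq_zero, add_comm]; exact h1
    subst this
    simp
  · rintro ⟨rfl, ⟨u, hu, rfl⟩, rfl⟩
    exact ⟨⟨u, 0, 0, ⟨hu, rfl, rfl⟩, -u, f u, 0, ⟨by simp, rfl⟩, by simp, by simp, by simp⟩, rfl, rfl⟩

theorem appinv_eq (Y : Submodule F N) (f : N →ₗ[F] N) :
    (J1 Y ⊔ G01 f) ⊓ J0 ⊤ = J0 (Y.comap f) := by
  ext ⟨a, b, c⟩
  simp only [Submodule.mem_inf, Submodule.mem_sup, mem_J0, mem_J1, mem_G01, Submodule.mem_comap,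
    Prod.exists, Prod.mk_add_mk, Prod.mk.injEq, Submodule.mem_top, true_and]
  constructor
  · rintro ⟨⟨u0, u, u2, ⟨rfl, hu, rfl⟩, w, w1, w2, ⟨rfl, rfl⟩, rfl, rfl, rfl⟩, h1, -⟩
    have : f w = u := by rw [← sub_eq_add_neg, sub_eq_zero] at h1; exact h1.symm
    subst this
    exact ⟨by simpa using hu, h1, by simp⟩
  · rintro ⟨h, rfl, rfl⟩
    exact ⟨⟨0, f a, 0, ⟨rfl, h, rfl⟩, a, -f a, 0, ⟨rfl, rfl⟩, by simp, by simp, by simp⟩, rfl, rfl⟩

/-- graph between first and third copy -/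
def G02 (f : N →ₗ[F] N) : Submodule F (N × N × N) where
  carrier := {x | x.2.1 = 0 ∧ x.2.2 = -f x.1}
  add_mem' := by
    rintro ⟨a, b, c⟩ ⟨a', b', c'⟩ ⟨h1, h2⟩ ⟨h3, h4⟩
    simp only at h1 h2 h3 h4
    subst h1 h2 h3 h4
    constructor
    · simp
    · simp; abel
  zero_mem' := by simp
  smul_mem' := by
    rintro r ⟨a, b, c⟩ ⟨h1, h2⟩
    simp only at h1 h2
    subst h1 h2
    constructor <;> simp

theorem mem_G02 {f : N →ₗ[F] N} {x : N × N × N} :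
    x ∈ G02 f ↔ x.2.1 = 0 ∧ x.2.2 = -f x.1 := Iff.rfl

theorem comp_eq (f g : N →ₗ[F] N) :
    (G01 g ⊔ G12 f) ⊓ (J0 ⊤ ⊔ J2 ⊤) = G02 (f ∘ₗ g) := by
  ext ⟨a, b, c⟩
  simp only [Submodule.mem_inf, Submodule.mem_sup, mem_J0,
    mem_J2, mem_G01, mem_G12, mem_G02, Prod.exists, Prod.mk_add_mk, Prod.mk.injEq,
    Submodule.mem_top, true_and, and_true, LinearMap.comp_apply]
  constructor
  · rintro ⟨⟨u, u1, u2, ⟨rfl, rfl⟩, w0, w, w2, ⟨rfl, rfl⟩, rfl, rfl, rfl⟩,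
      ⟨p, p1, p2, ⟨rfl, rfl⟩, q0, q1, q, ⟨rfl, rfl⟩, h1, h2, h3⟩⟩
    have : w = g u := by
      have h4 : -g u + w = 0 := by rw [← h2]; simp
      rw [neg_add_eq_zero] at h4
      exact h4.symm
    subst this
    simp
  · rintro ⟨rfl, rfl⟩
    refine ⟨⟨a, -g a, 0, ⟨rfl, rfl⟩, 0, g a, -f (g a), ⟨rfl, rfl⟩, by simp, by simp, by simp⟩,
      ⟨a, 0, 0, ⟨rfl, rfl⟩, 0, 0, -f (g a), ⟨rfl, rfl⟩, by simp, by simp, by simp⟩⟩

theorem g1' (f : N →ₗ[F] N) : (J0 ⊤ : Submodule F (N × N × N)) ≤ J1 ⊤ ⊔ G01 f := by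
  rintro ⟨a, b, c⟩ h
  rw [mem_J0] at h
  obtain ⟨-, h1, h2⟩ := h
  simp only at h1 h2
  subst h1 h2
  refine Submodule.mem_sup.2 ⟨(0, f a, 0), ?_, (a, -f a, 0), ?_, by simp⟩
  · simp [mem_J1]
  · simp [mem_G01]

theorem g2' : (J1 ⊤ : Submodule F (N × N × N)) ≤ J0 ⊤ ⊔ G01 LinearMap.id := by
  rintro ⟨a, b, c⟩ h
  rw [mem_J1] at h
  obtain ⟨h1, -, h2⟩ := h
  simp only at h1 h2
  subst h1 h2
  refine Submodule.mem_sup.2 ⟨(b, 0, 0), ?_, (-b, b, 0), ?_, by simp⟩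
  · simp [mem_J0]
  · simp [mem_G01]

theorem g3' : (J1 ⊤ : Submodule F (N × N × N)) ≤ J2 ⊤ ⊔ G12 LinearMap.id := by
  rintro ⟨a, b, c⟩ h
  rw [mem_J1] at h
  obtain ⟨h1, -, h2⟩ := h
  simp only at h1 h2
  subst h1 h2
  refine Submodule.mem_sup.2 ⟨(0, 0, b), ?_, (0, b, -b), ?_, by simp⟩
  · simp [mem_J2]
  · simp [mem_G12]

theorem h1' (f : N →ₗ[F] N) : G01 f ⊓ J1 ⊤ = ⊥ := by
  rw [eq_bot_iff]
  rintro ⟨a, b, c⟩ ⟨h1, h2⟩
  rw [SetLike.mem_coe, mem_G01] at h1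
  rw [SetLike.mem_coe, mem_J1] at h2
  obtain ⟨h1, h3⟩ := h1
  obtain ⟨h2, -, -⟩ := h2
  simp only at h1 h2 h3
  subst h1 h2 h3
  simp

theorem h2' (f : N →ₗ[F] N) (hf : Function.Injective f) : G01 f ⊓ J0 ⊤ = ⊥ := by
  rw [eq_bot_iff]
  rintro ⟨a, b, c⟩ ⟨h1, h2⟩
  rw [SetLike.mem_coe, mem_G01] at h1
  rw [SetLike.mem_coe, mem_J0] at h2
  obtain ⟨h1, h3⟩ := h1
  obtain ⟨-, h2, -⟩ := h2
  simp only at h1 h2 h3
  subst h2 h3
  have h4 : f a = 0 := by simpa using h1.symm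
  have h5 : a = 0 := hf (by simpa using h4)
  subst h5
  simp

theorem h3' : (G12 LinearMap.id ⊓ J1 ⊤ : Submodule F (N × N × N)) = ⊥ := by
  rw [eq_bot_iff]
  rintro ⟨a, b, c⟩ ⟨h1, h2⟩
  rw [SetLike.mem_coe, mem_G12] at h1
  rw [SetLike.mem_coe, mem_J1] at h2
  obtain ⟨h1, h3⟩ := h1
  obtain ⟨-, -, h2⟩ := h2
  simp only at h1 h2 h3
  subst h1 h2
  have h4 : b = 0 := by simpa using h3.symm
  subst h4
  simp

theorem h5' : ((J0 ⊤ ⊔ J1 ⊤) ⊓ (J1 ⊤ ⊔ J2 ⊤) : Submodule F (N × N × N)) ≤ J1 ⊤ := by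
  rintro ⟨a, b, c⟩ ⟨h1, h2⟩
  rw [SetLike.mem_coe, Submodule.mem_sup] at h1 h2
  obtain ⟨⟨y0, y1, y2⟩, hy, ⟨z0, z1, z2⟩, hz, h3⟩ := h1
  obtain ⟨⟨u0, u1, u2⟩, hu, ⟨w0, w1, w2⟩, hw, h4⟩ := h2
  rw [mem_J0] at hy
  rw [mem_J1] at hz hu
  rw [mem_J2] at hw
  simp only [Submodule.mem_top, true_and, and_true] at hy hz hu hw
  obtain ⟨rfl, rfl⟩ := hy
  obtain ⟨rfl, rfl⟩ := hz
  obtain ⟨rfl, rfl⟩ := hu
  obtain ⟨rfl, rfl⟩ := hw
  simp only [Prod.mk_add_mk, Prod.mk.injEq, add_zero, zero_add] at h3 h4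
  rw [mem_J1]
  exact ⟨h4.1.symm, trivial, h3.2.2.symm⟩

theorem G01_le (f : N →ₗ[F] N) : G01 f ≤ J0 ⊤ ⊔ J1 ⊤ := by
  rintro ⟨a, b, c⟩ h
  rw [mem_G01] at h
  obtain ⟨h1, h2⟩ := h
  simp only at h1 h2
  subst h1 h2
  refine Submodule.mem_sup.2 ⟨(a, 0, 0), ?_, (0, -f a, 0), ?_, by simp⟩
  · simp [mem_J0]
  · simp [mem_J1]

theorem G12_le (f : N →ₗ[F] N) : G12 f ≤ J1 ⊤ ⊔ J2 ⊤ := by
  rintro ⟨a, b, c⟩ h
  rw [mem_G12] at h
  obtain ⟨h1, h2⟩ := h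
  simp only at h1 h2
  subst h1 h2
  refine Submodule.mem_sup.2 ⟨(0, b, 0), ?_, (0, 0, -f b), ?_, by simp⟩
  · simp [mem_J1]
  · simp [mem_J2]

end abstractPart

section concretePart

variable (F : Type) [Field F]

/-- the coordinate space of one copy -/
abbrev NN : Type := (Stk × ℕ) →₀ F

/-- the push map -/
noncomputable def pmap (k : K') (a : Γ') : NN F →ₗ[F] NN F :=
  Finsupp.lmapDomain F F fun p : Stk × ℕ => (psh k a p.1, p.2)

/-- the subspace of vectors supported on a set of configurations -/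
noncomputable def supp (X : Set Stk) : Submodule F (NN F) := Finsupp.supported F F {p | p.1 ∈ X}

theorem psh_injective (k : K') (a : Γ') : Function.Injective (psh k a) := by
  intro S T h
  funext l
  by_cases hl : l = k
  · subst hl
    have := congrFun h l
    simpa [psh] using this
  · have := congrFun h l
    simpa [psh, Function.update_of_ne hl] using this

theorem psh_comm {k l : K'} (h : k ≠ l) (a b : Γ') (S : Stk) :
    psh k a (psh l b S) = psh l b (psh k a S) := by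
  simp only [psh]
  rw [Function.update_comm h.symm, Function.update_of_ne h, Function.update_of_ne h.symm]

theorem pshp_injective (k : K') (a : Γ') :
    Function.Injective fun p : Stk × ℕ => (psh k a p.1, p.2) := by
  rintro ⟨S, m⟩ ⟨T, n⟩ h
  simp only [Prod.mk.injEq] at h
  rw [psh_injective k a h.1, h.2]

theorem pmap_injective (k : K') (a : Γ') : Function.Injective (pmap F k a) :=
  Finsupp.mapDomain_injective (pshp_injective k a)

theorem map_supp (k : K') (a : Γ') (X : Set Stk) :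
    (supp F X).map (pmap F k a) = supp F (psh k a '' X) := by
  unfold supp pmap
  rw [Finsupp.lmapDomain_supported]
  congr 1
  ext ⟨S, m⟩
  simp only [Set.mem_image, Set.mem_ofPred_eq, Prod.exists, Prod.mk.injEq]
  constructor
  · rintro ⟨T, n, hT, h, rfl⟩
    exact ⟨T, hT, h⟩
  · rintro ⟨T, hT, h⟩
    exact ⟨T, m, hT, h, rfl⟩

theorem comap_supp (k : K') (a : Γ') (X : Set Stk) :
    (supp F X).comap (pmap F k a) = supp F (psh k a ⁻¹' X) := by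
  ext u
  simp only [supp, Submodule.mem_comap, Finsupp.mem_supported]
  have h : ((pmap F k a u).support : Set (Stk × ℕ)) =
      (fun p : Stk × ℕ => (psh k a p.1, p.2)) '' (u.support : Set (Stk × ℕ)) := by
    classical
    show ((Finsupp.mapDomain (fun p : Stk × ℕ => (psh k a p.1, p.2)) u).support : Set (Stk × ℕ)) = _
    rw [Finsupp.mapDomain_support_of_injective (pshp_injective k a)]
    simp
  rw [h, Set.image_subset_iff]
  rfl

theorem supp_mono {X Y : Set Stk} (h : X ⊆ Y) : supp F X ≤ supp F Y :=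
  Finsupp.supported_mono fun _ hp => h hp

theorem supp_inf (X Y : Set Stk) : supp F X ⊓ supp F Y = supp F (X ∩ Y) := by
  ext u
  simp only [supp, Submodule.mem_inf, Finsupp.mem_supported]
  rw [← Set.subset_inter_iff]
  rfl

theorem supp_empty : supp F ∅ = ⊥ := by
  unfold supp
  have : {p : Stk × ℕ | p.1 ∈ (∅ : Set Stk)} = ∅ := by ext; simp
  rw [this, Finsupp.supported_empty]

theorem pmap_comm {k l : K'} (h : k ≠ l) (a b : Γ') :
    pmap F k a ∘ₗ pmap F l b = pmap F l b ∘ₗ pmap F k a := by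
  unfold pmap
  rw [← Finsupp.lmapDomain_comp, ← Finsupp.lmapDomain_comp]
  congr 1
  funext p
  simp [psh_comm h]

/-- the intended model for a family of sets of configurations -/
noncomputable def mdl (X : ℕ → Set Stk) : Sys (Submodule F (NN F × NN F × NN F)) where
  a0 := J0 ⊤
  a1 := J1 ⊤
  a2 := J2 ⊤
  c := G01 LinearMap.id
  c' := G12 LinearMap.id
  e0 := J0 (supp F {stk0 []})
  z k := J0 (supp F {S | S k = []})
  s k a := G01 (pmap F k a)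
  s' k a := G12 (pmap F k a)
  d q := J0 (supp F (X q))

variable {F}

theorem mdl_push (X : ℕ → Set Stk) (k : K') (a : Γ') (Y : Submodule F (NN F)) :
    (mdl F X).push k a (J0 Y) = J0 (Y.map (pmap F k a)) := by
  show (((J0 Y ⊔ G01 (pmap F k a)) ⊓ J1 ⊤) ⊔ G01 LinearMap.id) ⊓ J0 ⊤ = _
  rw [app_eq, appinv_eq, Submodule.comap_id]

theorem mdl_pop (X : ℕ → Set Stk) (k : K') (a : Γ') (Y : Submodule F (NN F)) :
    (mdl F X).pop k a (J0 Y) = J0 (Y.comap (pmap F k a)) := by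
  show (((J0 Y ⊔ G01 LinearMap.id) ⊓ J1 ⊤) ⊔ G01 (pmap F k a)) ⊓ J0 ⊤ = _
  rw [app_eq, appinv_eq, Submodule.map_id]

theorem mdl_base (X : ℕ → Set Stk) : (mdl F X).Base where
  g1 := g2'
  g2 := h1' _
  g3 := g1' _
  g3' := h2' _ Function.injective_id
  g4 := g3'
  g4' := h3'
  g5 := h5'
  g6 := J0_mono le_top
  g7 := G01_le _
  g8 := G12_le _
  g9 _ _ := G01_le _
  g10 _ _ := G12_le _
  s1 _ _ := g1' _
  s4 k a := h2' _ (pmap_injective F k a)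
  s2 k a l b hkl := by
    show (G01 (pmap F l b) ⊔ G12 (pmap F k a)) ⊓ (J0 ⊤ ⊔ J2 ⊤) =
      (G01 (pmap F k a) ⊔ G12 (pmap F l b)) ⊓ (J0 ⊤ ⊔ J2 ⊤)
    rw [comp_eq, comp_eq, pmap_comm F hkl]
  s3 k a := by
    show (G01 LinearMap.id ⊔ G12 (pmap F k a)) ⊓ (J0 ⊤ ⊔ J2 ⊤) =
      (G01 (pmap F k a) ⊔ G12 LinearMap.id) ⊓ (J0 ⊤ ⊔ J2 ⊤)
    rw [comp_eq, comp_eq]
    rfl
  z1 k := by
    refine J0_mono (supp_mono F ?_)
    rintro S rfl
    cases k <;> rfl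
  z2 k l a hlk := by
    show (mdl F X).push l a (J0 (supp F {S | S k = []})) ≤ J0 (supp F {S | S k = []})
    rw [mdl_push, map_supp]
    refine J0_mono (supp_mono F ?_)
    rintro _ ⟨S, hS, rfl⟩
    simp only [Set.mem_ofPred_eq] at hS ⊢
    rw [psh, Function.update_of_ne hlk.symm, hS]

/-- the sets `X` are closed under the rules -/
def Closed (R : List (ℕ × Op × ℕ)) (X : ℕ → Set Stk) : Prop :=
  ∀ r ∈ R, ∀ S S', S ∈ X r.1 → r.2.1.Rel S S' → S' ∈ X r.2.2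

theorem mdl_rules {R : List (ℕ × Op × ℕ)} {X : ℕ → Set Stk} (h : Closed R X) :
    ∀ r ∈ R, (mdl F X).OpHolds ((mdl F X).d r.1) r.2.1 ((mdl F X).d r.2.2) := by
  rintro ⟨q, op, q'⟩ hr
  have h' := h _ hr
  simp only at h' ⊢
  cases op with
  | push k a =>
    show (mdl F X).push k a (J0 (supp F (X q))) ≤ J0 (supp F (X q'))
    rw [mdl_push, map_supp]
    refine J0_mono (supp_mono F ?_)
    rintro _ ⟨S, hS, rfl⟩
    exact h' S _ hS rfl
  | pop k a =>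
    show (mdl F X).pop k a (J0 (supp F (X q))) ≤ J0 (supp F (X q'))
    rw [mdl_pop, comap_supp]
    refine J0_mono (supp_mono F ?_)
    intro S hS
    exact h' _ S hS rfl
  | peek k a =>
    show (mdl F X).push k a ((mdl F X).pop k a (J0 (supp F (X q)))) ≤ J0 (supp F (X q'))
    rw [mdl_pop, comap_supp, mdl_push, map_supp]
    refine J0_mono (supp_mono F ?_)
    rintro _ ⟨S, hS, rfl⟩
    exact h' _ _ hS ⟨⟨S, rfl⟩, rfl⟩
  | empty k =>
    show J0 (supp F {S | S k = []}) ⊓ J0 (supp F (X q)) ≤ J0 (supp F (X q'))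
    rw [J0_inf, supp_inf]
    refine J0_mono (supp_mono F ?_)
    rintro S ⟨hS1, hS2⟩
    exact h' S S hS2 ⟨hS1, rfl⟩
  | nop =>
    show J0 (supp F (X q)) ≤ J0 (supp F (X q'))
    refine J0_mono (supp_mono F ?_)
    intro S hS
    exact h' S S hS rfl

theorem mdl_E (X : ℕ → Set Stk) (l : List Γ') : (mdl F X).E (stk0 l) = J0 (supp F {stk0 l}) := by
  show (mdl F X).pushL K'.main l (mdl F X).e0 = _
  induction l with
  | nil => rfl
  | cons a l ih =>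
    rw [Sys.pushL_cons, ih, mdl_push, map_supp, Set.image_singleton]
    congr 3
    funext k
    cases k <;> simp [psh, stk0]

theorem mdl_start {X : ℕ → Set Stk} {q : ℕ} {l : List Γ'} (h : stk0 l ∈ X q) :
    (mdl F X).E (stk0 l) ≤ (mdl F X).d q := by
  rw [mdl_E]
  exact J0_mono (supp_mono F (Set.singleton_subset_iff.2 h))

theorem mdl_halt {X : ℕ → Set Stk} {q : ℕ} (h : X q = ∅) : (mdl F X).d q = ⊥ := by
  show J0 (supp F (X q)) = ⊥
  rw [h, supp_empty, J0_bot]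

end concretePart

end Pool.Agent.Lib.MP_8d6ead_lc
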