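import Mathlib

/-!
# Closure properties of recursively enumerable predicates
-/

namespace Pool.Agent.Lib.MP_8d6ead_lc

open Encodable Computable

variable {α β γ : Type*} [Primcodable α] [Primcodable β] [Primcodable γ]

theorem re_exists {P : α × β → Prop} (h : REPred P) : REPred fun a => ∃ b, P (a, b) := by
  obtain ⟨c, hc⟩ := Nat.Partrec.Code.exists_code.1 h
  have key : ∀ (a : α) (m : ℕ), (c.eval (Nat.pair (encode a) m)).Dom ↔
      ∃ b : β, (decode m : Option β) = some b ∧ P (a, b) := by
    intro a m
    rw [hc]
    simp only [Encodable.decode_prod_val, Nat.unpair_pair, encodek]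
    rcases hm : (decode m : Option β) with _ | b
    · simp
    · simp [Part.assert]
  have hcomp : Computable₂ fun (a : α) (N : ℕ) =>
      (Nat.Partrec.Code.evaln N.unpair.1 c (Nat.pair (encode a) N.unpair.2)).isSome := by
    have h1 : Computable fun p : α × ℕ => ((p.2.unpair.1, c), Nat.pair (encode p.1) p.2.unpair.2) := by
      refine Computable.pair (Computable.pair ?_ (Computable.const c)) ?_
      · exact Computable.fst.comp (Primrec.unpair.to_comp.comp Computable.snd)
      · exact (Primrec₂.natPair.to_comp).comp (Computable.encode.comp Computable.fst)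
          (Computable.snd.comp (Primrec.unpair.to_comp.comp Computable.snd))
    have h2 := Nat.Partrec.Code.primrec_evaln.to_comp.comp h1
    exact (Primrec.option_isSome.to_comp.comp h2)
  have hp : Partrec fun a : α => Nat.rfind fun N =>
      Part.some (Nat.Partrec.Code.evaln N.unpair.1 c (Nat.pair (encode a) N.unpair.2)).isSome :=
    Partrec.rfind hcomp.partrec₂
  refine hp.dom_re.of_eq fun a => ?_
  refine (Nat.rfind_dom (p := fun N => Part.some
    (Nat.Partrec.Code.evaln N.unpair.1 c (Nat.pair (encode a) N.unpair.2)).isSome)).trans ?_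
  constructor
  · rintro ⟨N, hN, -⟩
    simp only [Part.mem_some_iff] at hN
    obtain ⟨x, hx⟩ := Option.isSome_iff_exists.1 hN.symm
    have h2 := Nat.Partrec.Code.evaln_sound hx
    obtain ⟨b, _, hb⟩ := (key a _).1 (Part.dom_iff_mem.2 ⟨x, h2⟩)
    exact ⟨b, hb⟩
  · rintro ⟨b, hb⟩
    have h1 : (c.eval (Nat.pair (encode a) (encode b))).Dom :=
      (key a (encode b)).2 ⟨b, encodek b, hb⟩
    obtain ⟨x, hx⟩ := Part.dom_iff_mem.1 h1
    obtain ⟨k, hk⟩ := Nat.Partrec.Code.evaln_complete.1 hx
    refine ⟨Nat.pair k (encode b), ?_, fun _ => trivial⟩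
    simp only [Nat.unpair_pair, Part.mem_some_iff]
    rw [Option.mem_def.1 hk]
    rfl

theorem re_and {P Q : α → Prop} (hP : REPred P) (hQ : REPred Q) : REPred fun a => P a ∧ Q a := by
  have h : Partrec fun a : α => (Part.assert (P a) fun _ => Part.some ()).bind fun _ =>
      (Part.assert (Q a) fun _ => Part.some ()) :=
    Partrec.bind hP (hQ.comp Computable.fst).to₂
  refine h.dom_re.of_eq fun a => ?_
  simp [Part.assert]

theorem re_comp {P : β → Prop} (hP : REPred P) {f : α → β} (hf : Computable f) :
    REPred fun a => P (f a) := Partrec.comp hP hf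

theorem re_range {f : β → γ} (hf : Computable f) : REPred fun v : γ => ∃ b, f b = v := by
  classical
  have h : ComputablePred fun p : γ × β => f p.2 = p.1 := by
    refine Computable.computablePred ?_
    exact (Primrec.eq (α := γ)).decide.to_comp.comp (hf.comp Computable.snd) Computable.fst
  exact re_exists h.to_re

end Pool.Agent.Lib.MP_8d6ead_lc
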