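import Pool.Agent.Lib.MP_8d6ead_lc.Model

/-!
# Effective enumeration of reachable configurations
-/

namespace Pool.Agent.Lib.MP_8d6ead_lc

open Turing PartrecToTM2 Relation

/-- numbering of symbols -/
def eG : Γ' ≃ Fin 4 where
  toFun
    | .consₗ => 0
    | .cons => 1
    | .bit0 => 2
    | .bit1 => 3
  invFun
    | 0 => .consₗ
    | 1 => .cons
    | 2 => .bit0
    | 3 => .bit1
  left_inv := by intro a; cases a <;> rfl
  right_inv := by intro i; fin_cases i <;> rfl

instance primG : Primcodable Γ' := Primcodable.ofEquiv (Fin 4) eG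

/-- stack contents as a tuple -/
def eS : Stk ≃ List Γ' × List Γ' × List Γ' × List Γ' where
  toFun S := (S .main, S .rev, S .aux, S .stack)
  invFun p := K'.elim p.1 p.2.1 p.2.2.1 p.2.2.2
  left_inv := by intro S; funext k; cases k <;> rfl
  right_inv := by rintro ⟨a, b, c, d⟩; rfl

instance primS : Primcodable Stk := Primcodable.ofEquiv _ eS

theorem eS_primrec : Primrec eS := Primrec.of_equiv
theorem eS_symm_primrec : Primrec eS.symm := Primrec.of_equiv_symm

theorem get_primrec (k : K') : Primrec fun S : Stk => S k := by
  cases k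
  · exact (Primrec.fst.comp eS_primrec).of_eq fun S => rfl
  · exact (Primrec.fst.comp (Primrec.snd.comp eS_primrec)).of_eq fun S => rfl
  · exact (Primrec.fst.comp (Primrec.snd.comp (Primrec.snd.comp eS_primrec))).of_eq fun S => rfl
  · exact (Primrec.snd.comp (Primrec.snd.comp (Primrec.snd.comp eS_primrec))).of_eq fun S => rfl

theorem upd_primrec (k : K') {f : Stk → List Γ'} (hf : Primrec f) :
    Primrec fun S : Stk => Function.update S k (f S) := by
  have h0 := get_primrec .main
  have h1 := get_primrec .rev
  have h2 := get_primrec .aux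
  have h3 := get_primrec .stack
  cases k
  · refine (eS_symm_primrec.comp (hf.pair (h1.pair (h2.pair h3)))).of_eq fun S => ?_
    funext l; cases l <;> rfl
  · refine (eS_symm_primrec.comp (h0.pair (hf.pair (h2.pair h3)))).of_eq fun S => ?_
    funext l; cases l <;> rfl
  · refine (eS_symm_primrec.comp (h0.pair (h1.pair (hf.pair h3)))).of_eq fun S => ?_
    funext l; cases l <;> rfl
  · refine (eS_symm_primrec.comp (h0.pair (h1.pair (h2.pair hf)))).of_eq fun S => ?_
    funext l; cases l <;> rfl

theorem psh_primrec (k : K') (a : Γ') : Primrec (psh k a) :=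
  upd_primrec k (Primrec.list_cons.comp (Primrec.const a) (get_primrec k))

/-- operations as functions -/
def Op.app : Op → Stk → Option Stk
  | .push k a, S => some (psh k a S)
  | .pop k a, S => if (S k).head? = some a then some (Function.update S k (S k).tail) else none
  | .peek k a, S => if (S k).head? = some a then some S else none
  | .empty k, S => if (S k).head? = none then some S else none
  | .nop, S => some S

theorem psh_iff {k : K'} {a : Γ'} {S S' : Stk} :
    S = psh k a S' ↔ (S k).head? = some a ∧ Function.update S k (S k).tail = S' := by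
  constructor
  · rintro rfl
    simp [psh]
  · rintro ⟨h, rfl⟩
    rcases hS : S k with _ | ⟨b, l⟩
    · rw [hS] at h; simp at h
    · rw [hS] at h
      simp only [List.head?_cons, Option.some.injEq] at h
      subst h
      simp only [psh, List.tail_cons, Function.update_self, Function.update_idem]
      rw [← hS]; simp

theorem Op.app_iff (op : Op) (S S' : Stk) : op.Rel S S' ↔ op.app S = some S' := by
  cases op with
  | push k a => simp only [Op.Rel, Op.app, Option.some.injEq]; exact eq_comm
  | pop k a =>
    show S = psh k a S' ↔ _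
    rw [psh_iff]
    simp [Op.app]
  | peek k a =>
    show ((∃ S₀, S = psh k a S₀) ∧ S' = S) ↔ _
    simp only [psh_iff, Op.app, Option.ite_none_right_eq_some, Option.some.injEq]
    constructor
    · rintro ⟨⟨S₀, h1, -⟩, rfl⟩
      exact ⟨h1, rfl⟩
    · rintro ⟨h1, rfl⟩
      exact ⟨⟨_, h1, rfl⟩, rfl⟩
  | empty k =>
    show (S k = [] ∧ S' = S) ↔ _
    simp only [Op.app, List.head?_eq_none_iff, Option.ite_none_right_eq_some, Option.some.injEq]
    tauto
  | nop => simp only [Op.Rel, Op.app, Option.some.injEq]; exact eq_comm

theorem Op.app_primrec (op : Op) : Primrec op.app := by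
  cases op with
  | push k a => exact Primrec.option_some.comp (psh_primrec k a)
  | pop k a =>
    exact Primrec.ite (Primrec.eq.comp (Primrec.list_head?.comp (get_primrec k))
      (Primrec.const (some a))) (Primrec.option_some.comp (upd_primrec k
        (Primrec.list_tail.comp (get_primrec k)))) (Primrec.const none)
  | peek k a =>
    exact Primrec.ite (Primrec.eq.comp (Primrec.list_head?.comp (get_primrec k))
      (Primrec.const (some a))) Primrec.option_some (Primrec.const none)
  | empty k =>
    exact Primrec.ite (Primrec.eq.comp (Primrec.list_head?.comp (get_primrec k))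
      (Primrec.const none)) Primrec.option_some (Primrec.const none)
  | nop => exact Primrec.option_some

/-- a rule as a function -/
def ruleApp (r : ℕ × Op × ℕ) (c : ℕ × Stk) : Option (ℕ × Stk) :=
  if c.1 = r.1 then (r.2.1.app c.2).map fun S => (r.2.2, S) else none

theorem ruleApp_primrec (r : ℕ × Op × ℕ) : Primrec (ruleApp r) := by
  refine Primrec.ite (Primrec.eq.comp Primrec.fst (Primrec.const r.1)) ?_ (Primrec.const none)
  exact Primrec.option_map ((Op.app_primrec _).comp Primrec.snd)
    (Primrec.pair (Primrec.const _) Primrec.snd).to₂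

/-- apply the rule with a given index -/
def stepIdx : List (ℕ × Op × ℕ) → ℕ → ℕ × Stk → Option (ℕ × Stk)
  | [], _, _ => none
  | r :: _, 0, c => ruleApp r c
  | _ :: R, i + 1, c => stepIdx R i c

theorem stepIdx_primrec (R : List (ℕ × Op × ℕ)) :
    Primrec fun p : ℕ × (ℕ × Stk) => stepIdx R p.1 p.2 := by
  induction R with
  | nil => exact Primrec.const none
  | cons r R ih =>
    have h : Primrec fun p : ℕ × (ℕ × Stk) =>
        (Nat.casesOn p.1 (ruleApp r p.2) fun i => stepIdx R i p.2 : Option (ℕ × Stk)) := by
      refine Primrec.nat_casesOn Primrec.fst ((ruleApp_primrec r).comp Primrec.snd) ?_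
      exact (ih.comp (Primrec.pair Primrec.snd (Primrec.snd.comp Primrec.fst))).to₂
    refine h.of_eq ?_
    rintro ⟨i, c⟩
    cases i <;> rfl

theorem step_iff (R : List (ℕ × Op × ℕ)) (c c' : ℕ × Stk) :
    Step R c c' ↔ ∃ i, stepIdx R i c = some c' := by
  induction R with
  | nil => simp [Step, stepIdx]
  | cons r R ih =>
    have h1 : (∃ i, stepIdx (r :: R) i c = some c') ↔
        (ruleApp r c = some c' ∨ ∃ i, stepIdx R i c = some c') := by
      constructor
      · rintro ⟨i, hi⟩
        cases i with
        | zero => exact Or.inl hi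
        | succ i => exact Or.inr ⟨i, hi⟩
      · rintro (h | ⟨i, hi⟩)
        · exact ⟨0, h⟩
        · exact ⟨i + 1, hi⟩
    rw [h1, ← ih]
    have h2 : ruleApp r c = some c' ↔ (r.1 = c.1 ∧ r.2.2 = c'.1 ∧ r.2.1.Rel c.2 c'.2) := by
      obtain ⟨p, S⟩ := c
      obtain ⟨p', S'⟩ := c'
      simp only [ruleApp, Op.app_iff, Option.ite_none_right_eq_some, Option.map_eq_some_iff,
        Prod.mk.injEq]
      constructor
      · rintro ⟨e1, S0, e2, e3, rfl⟩
        exact ⟨e1.symm, e3, e2⟩
      · rintro ⟨e1, e2, e3⟩
        exact ⟨e1.symm, S', e3, e2, rfl⟩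
    rw [h2]
    simp [Step]

/-- run a sequence of rule indices -/
def run (R : List (ℕ × Op × ℕ)) (c : ℕ × Stk) (l : List ℕ) : Option (ℕ × Stk) :=
  l.foldl (fun o i => o.bind fun c => stepIdx R i c) (some c)

theorem run_primrec (R : List (ℕ × Op × ℕ)) (c : ℕ × Stk) : Primrec (run R c) := by
  have h : Primrec₂ fun (_ : List ℕ) (p : Option (ℕ × Stk) × ℕ) =>
      p.1.bind fun c => stepIdx R p.2 c := by
    refine Primrec.option_bind (Primrec.fst.comp Primrec.snd) ?_
    exact ((stepIdx_primrec R).comp (Primrec.pair (Primrec.snd.comp (Primrec.snd.comp Primrec.fst))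
      Primrec.snd)).to₂
  exact Primrec.list_foldl Primrec.id (Primrec.const (some c)) h

theorem reach_iff (R : List (ℕ × Op × ℕ)) (c c' : ℕ × Stk) :
    Reach R c c' ↔ ∃ l, run R c l = some c' := by
  constructor
  · intro h
    induction h with
    | refl => exact ⟨[], rfl⟩
    | tail _ h ih =>
      obtain ⟨l, hl⟩ := ih
      obtain ⟨i, hi⟩ := (step_iff _ _ _).1 h
      refine ⟨l ++ [i], ?_⟩
      unfold run at hl ⊢
      rw [List.foldl_append, hl]
      exact hi
  · rintro ⟨l, hl⟩
    induction l using List.reverseRecOn generalizing c' with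
    | nil =>
      simp only [run, List.foldl_nil, Option.some.injEq] at hl
      subst hl
      exact ReflTransGen.refl
    | append_singleton l i ih =>
      unfold run at hl ih
      rw [List.foldl_append] at hl
      simp only [List.foldl_cons, List.foldl_nil, Option.bind_eq_some_iff] at hl
      obtain ⟨d, hd1, hd2⟩ := hl
      exact ReflTransGen.tail (ih _ hd1) ((step_iff _ _ _).2 ⟨i, hd2⟩)

end Pool.Agent.Lib.MP_8d6ead_lc
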