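import Pool.Agent.Lib.MP_8d6ead_lc.Embed
import Pool.Agent.Lib.MP_8d6ead_lc.Comp

/-!
# Transfer of the model to the quotient lattice
-/

namespace Pool.Agent.Lib.MP_8d6ead_lc

open Turing PartrecToTM2 Relation Encodable

/-- maps preserving joins, meets and the least element -/
structure LHom {L₁ L₂ : Type*} [Lattice L₁] [OrderBot L₁] [Lattice L₂] [OrderBot L₂]
    (h : L₁ → L₂) : Prop where
  inf : ∀ x y, h (x ⊓ y) = h x ⊓ h y
  sup : ∀ x y, h (x ⊔ y) = h x ⊔ h y
  bot : h ⊥ = ⊥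

section maps

variable {L₁ L₂ : Type*} [Lattice L₁] [OrderBot L₁] [Lattice L₂] [OrderBot L₂] {h : L₁ → L₂}

theorem LHom.mono (hh : LHom h) {x y : L₁} (hxy : x ≤ y) : h x ≤ h y := by
  rw [← inf_eq_left] at hxy ⊢
  rw [← hh.inf, hxy]

theorem LHom.reflect (hh : LHom h) (hi : Function.Injective h) {x y : L₁} (hxy : h x ≤ h y) :
    x ≤ y := by
  rw [← inf_eq_left] at hxy ⊢
  rw [← hh.inf] at hxy
  exact hi hxy

/-- image of a system -/
def Sys.map (h : L₁ → L₂) (M : Sys L₁) : Sys L₂ where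
  a0 := h M.a0
  a1 := h M.a1
  a2 := h M.a2
  c := h M.c
  c' := h M.c'
  e0 := h M.e0
  z k := h (M.z k)
  s k a := h (M.s k a)
  s' k a := h (M.s' k a)
  d q := h (M.d q)

theorem Sys.map_push (hh : LHom h) (M : Sys L₁) (k : K') (a : Γ') (y : L₁) :
    (M.map h).push k a (h y) = h (M.push k a y) := by
  simp [Sys.push, Sys.map, hh.inf, hh.sup]

theorem Sys.map_pop (hh : LHom h) (M : Sys L₁) (k : K') (a : Γ') (y : L₁) :
    (M.map h).pop k a (h y) = h (M.pop k a y) := by
  simp [Sys.pop, Sys.map, hh.inf, hh.sup]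

theorem Sys.map_comp (hh : LHom h) (M : Sys L₁) (r t : L₁) :
    (M.map h).comp (h r) (h t) = h (M.comp r t) := by
  simp [Sys.comp, Sys.map, hh.inf, hh.sup]

theorem Sys.map_pushL (hh : LHom h) (M : Sys L₁) (k : K') (l : List Γ') (y : L₁) :
    (M.map h).pushL k l (h y) = h (M.pushL k l y) := by
  induction l with
  | nil => rfl
  | cons a l ih => rw [Sys.pushL_cons, Sys.pushL_cons, ih, Sys.map_push hh]

theorem Sys.map_E (hh : LHom h) (M : Sys L₁) (S : Stk) : (M.map h).E S = h (M.E S) := by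
  unfold Sys.E
  rw [show (M.map h).e0 = h M.e0 from rfl, Sys.map_pushL hh, Sys.map_pushL hh, Sys.map_pushL hh,
    Sys.map_pushL hh]

theorem Sys.map_opHolds (hh : LHom h) {M : Sys L₁} {op : Op} {y y' : L₁}
    (H : M.OpHolds y op y') : (M.map h).OpHolds (h y) op (h y') := by
  cases op with
  | push k a => show (M.map h).push k a (h y) ≤ h y'; rw [Sys.map_push hh]; exact hh.mono H
  | pop k a => show (M.map h).pop k a (h y) ≤ h y'; rw [Sys.map_pop hh]; exact hh.mono H
  | peek k a =>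
    show (M.map h).push k a ((M.map h).pop k a (h y)) ≤ h y'
    rw [Sys.map_pop hh, Sys.map_push hh]; exact hh.mono H
  | empty k => show h (M.z k) ⊓ h y ≤ h y'; rw [← hh.inf]; exact hh.mono H
  | nop => exact hh.mono H

theorem Sys.reflect_opHolds (hh : LHom h) (hi : Function.Injective h) {M : Sys L₁} {op : Op}
    {y y' : L₁} (H : (M.map h).OpHolds (h y) op (h y')) : M.OpHolds y op y' := by
  cases op with
  | push k a =>
    change (M.map h).push k a (h y) ≤ h y' at H; rw [Sys.map_push hh] at H; exact hh.reflect hi H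
  | pop k a =>
    change (M.map h).pop k a (h y) ≤ h y' at H; rw [Sys.map_pop hh] at H; exact hh.reflect hi H
  | peek k a =>
    change (M.map h).push k a ((M.map h).pop k a (h y)) ≤ h y' at H
    rw [Sys.map_pop hh, Sys.map_push hh] at H; exact hh.reflect hi H
  | empty k => change h (M.z k) ⊓ h y ≤ h y' at H; rw [← hh.inf] at H; exact hh.reflect hi H
  | nop => exact hh.reflect hi H

theorem Sys.Base.map (hh : LHom h) {M : Sys L₁} (H : M.Base) : (M.map h).Base where
  g1 := by show h M.a1 ≤ h M.a0 ⊔ h M.c; rw [← hh.sup]; exact hh.mono H.g1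
  g2 := by show h M.c ⊓ h M.a1 = ⊥; rw [← hh.inf, H.g2, hh.bot]
  g3 := by show h M.a0 ≤ h M.a1 ⊔ h M.c; rw [← hh.sup]; exact hh.mono H.g3
  g3' := by show h M.c ⊓ h M.a0 = ⊥; rw [← hh.inf, H.g3', hh.bot]
  g4 := by show h M.a1 ≤ h M.a2 ⊔ h M.c'; rw [← hh.sup]; exact hh.mono H.g4
  g4' := by show h M.c' ⊓ h M.a1 = ⊥; rw [← hh.inf, H.g4', hh.bot]
  g5 := by
    show (h M.a0 ⊔ h M.a1) ⊓ (h M.a1 ⊔ h M.a2) ≤ h M.a1
    rw [← hh.sup, ← hh.sup, ← hh.inf]; exact hh.mono H.g5
  g6 := hh.mono H.g6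
  g7 := by show h M.c ≤ h M.a0 ⊔ h M.a1; rw [← hh.sup]; exact hh.mono H.g7
  g8 := by show h M.c' ≤ h M.a1 ⊔ h M.a2; rw [← hh.sup]; exact hh.mono H.g8
  g9 k a := by show h (M.s k a) ≤ h M.a0 ⊔ h M.a1; rw [← hh.sup]; exact hh.mono (H.g9 k a)
  g10 k a := by show h (M.s' k a) ≤ h M.a1 ⊔ h M.a2; rw [← hh.sup]; exact hh.mono (H.g10 k a)
  s1 k a := by show h M.a0 ≤ h M.a1 ⊔ h (M.s k a); rw [← hh.sup]; exact hh.mono (H.s1 k a)
  s4 k a := by show h (M.s k a) ⊓ h M.a0 = ⊥; rw [← hh.inf, H.s4, hh.bot]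
  s2 k a l b hkl := by
    show (M.map h).comp (h (M.s' k a)) (h (M.s l b)) = (M.map h).comp (h (M.s' l b)) (h (M.s k a))
    rw [Sys.map_comp hh, Sys.map_comp hh, H.s2 k a l b hkl]
  s3 k a := by
    show (M.map h).comp (h (M.s' k a)) (h M.c) = (M.map h).comp (h M.c') (h (M.s k a))
    rw [Sys.map_comp hh, Sys.map_comp hh, H.s3]
  z1 k := hh.mono (H.z1 k)
  z2 k l a hlk := by
    show (M.map h).push l a (h (M.z k)) ≤ h (M.z k)
    rw [Sys.map_push hh]; exact hh.mono (H.z2 k l a hlk)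

theorem Sys.Base.reflect (hh : LHom h) (hi : Function.Injective h) {M : Sys L₁}
    (H : (M.map h).Base) : M.Base where
  g1 := hh.reflect hi (by rw [hh.sup]; exact H.g1)
  g2 := hi (by rw [hh.inf, hh.bot]; exact H.g2)
  g3 := hh.reflect hi (by rw [hh.sup]; exact H.g3)
  g3' := hi (by rw [hh.inf, hh.bot]; exact H.g3')
  g4 := hh.reflect hi (by rw [hh.sup]; exact H.g4)
  g4' := hi (by rw [hh.inf, hh.bot]; exact H.g4')
  g5 := hh.reflect hi (by rw [hh.inf, hh.sup, hh.sup]; exact H.g5)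
  g6 := hh.reflect hi H.g6
  g7 := hh.reflect hi (by rw [hh.sup]; exact H.g7)
  g8 := hh.reflect hi (by rw [hh.sup]; exact H.g8)
  g9 k a := hh.reflect hi (by rw [hh.sup]; exact H.g9 k a)
  g10 k a := hh.reflect hi (by rw [hh.sup]; exact H.g10 k a)
  s1 k a := hh.reflect hi (by rw [hh.sup]; exact H.s1 k a)
  s4 k a := hi (by rw [hh.inf, hh.bot]; exact H.s4 k a)
  s2 k a l b hkl := hi (by rw [← Sys.map_comp hh, ← Sys.map_comp hh]; exact H.s2 k a l b hkl)
  s3 k a := hi (by rw [← Sys.map_comp hh, ← Sys.map_comp hh]; exact H.s3 k a)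
  z1 k := hh.reflect hi (H.z1 k)
  z2 k l a hlk := hh.reflect hi (by rw [← Sys.map_push hh]; exact H.z2 k l a hlk)

end maps

/-- changing the elements `d q` does not matter for the base system -/
theorem Sys.Base.change {L : Type*} [Lattice L] [OrderBot L] {M : Sys L} (H : M.Base)
    (d' : ℕ → L) : ({M with d := d'} : Sys L).Base where
  g1 := H.g1
  g2 := H.g2
  g3 := H.g3
  g3' := H.g3'
  g4 := H.g4
  g4' := H.g4'
  g5 := H.g5
  g6 := H.g6
  g7 := H.g7
  g8 := H.g8
  g9 := H.g9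
  g10 := H.g10
  s1 := H.s1
  s4 := H.s4
  s2 := H.s2
  s3 := H.s3
  z1 := H.z1
  z2 := H.z2

noncomputable section quotient

variable (F V : Type) [Field F] [AddCommGroup V] [Module F V] [Primcodable F] [Primcodable V]
  [ComputableVectorSpace F V]

/-- class of a c.e. subspace -/
def cls (W : ceLattice F V) : LStar F V := Quotient.mk _ W

theorem cls_surj (x : LStar F V) : ∃ W, cls F V W = x := by
  obtain ⟨W⟩ := x
  exact ⟨W, rfl⟩

theorem cls_sup (A B : ceLattice F V) : cls F V (A ⊔ B) = cls F V A ⊔ cls F V B := rfl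

theorem cls_inf (A B : ceLattice F V) : cls F V (A ⊓ B) = cls F V A ⊓ cls F V B := rfl

/-- `L*(V)` is modular. -/
instance : IsModularLattice (LStar F V) where
  sup_inf_le_assoc_of_le := by
    intro x y z hac
    obtain ⟨a, rfl⟩ := cls_surj F V x
    obtain ⟨b, rfl⟩ := cls_surj F V y
    obtain ⟨c, rfl⟩ := cls_surj F V z
    have h1 : cls F V c = cls F V (a ⊔ c) := (sup_eq_right.2 hac).symm
    have h2 : ((a ⊔ b) ⊓ (a ⊔ c) : ceLattice F V) = a ⊔ b ⊓ (a ⊔ c) := by
      apply Subtype.ext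
      exact sup_inf_assoc_of_le (b : Submodule F V) le_sup_left
    rw [h1, ← cls_sup, ← cls_inf, h2, ← cls_inf, ← cls_sup]

variable {F V}

/-- subspaces of the model with c.e. image -/
def KK (b : ℕ → V) (hb : LinearIndependent F b) : Sublattice (Submodule F (NN F × NN F × NN F)) where
  carrier := {W | REPred fun v : V => v ∈ W.map (Phi F b)}
  supClosed' := fun A hA B hB => by
    show REPred fun v : V => v ∈ (A ⊔ B).map (Phi F b)
    rw [Submodule.map_sup]
    exact re_sup hA hB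
  infClosed' := fun A hA B hB => by
    show REPred fun v : V => v ∈ (A ⊓ B).map (Phi F b)
    rw [Submodule.map_inf _ (Phi_injective hb)]
    exact re_inf hA hB

instance (b : ℕ → V) (hb : LinearIndependent F b) : OrderBot (KK b hb) where
  bot := ⟨⊥, by
    show REPred fun v : V => v ∈ (⊥ : Submodule F (NN F × NN F × NN F)).map (Phi F b)
    rw [Submodule.map_bot]
    exact re_bot⟩
  bot_le a := show (⊥ : Submodule F (NN F × NN F × NN F)) ≤ a from bot_le

theorem lhom_val (b : ℕ → V) (hb : LinearIndependent F b) :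
    LHom (fun W : KK b hb => (W : Submodule F (NN F × NN F × NN F))) where
  inf _ _ := rfl
  sup _ _ := rfl
  bot := rfl

/-- the map from the model to `L*(V)` -/
def toStar (b : ℕ → V) (hb : LinearIndependent F b) (W : KK b hb) : LStar F V :=
  Quotient.mk _ ⟨(W : Submodule F (NN F × NN F × NN F)).map (Phi F b), W.2⟩

theorem lhom_toStar (b : ℕ → V) (hb : LinearIndependent F b) : LHom (toStar b hb) where
  inf x y := by
    refine congrArg (Quotient.mk _) (Subtype.ext ?_)
    exact Submodule.map_inf _ (Phi_injective hb)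
  sup x y := by
    refine congrArg (Quotient.mk _) (Subtype.ext ?_)
    exact Submodule.map_sup _ _ _
  bot := by
    refine congrArg (Quotient.mk _) (Subtype.ext ?_)
    exact Submodule.map_bot _

/-- the model inside the lattice of subspaces with c.e. image -/
def mdlK {b : ℕ → V} (hb : LinearIndependent F b) (hc : Computable b) (X : ℕ → Set Stk)
    (hX : ∀ q, REPred fun v : V => v ∈ (J0 (supp F (X q))).map (Phi F b))
    (hZ : ∀ k : K', REPred fun v : V => v ∈ (J0 (supp F {S : Stk | S k = []})).map (Phi F b))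
    (h0 : REPred fun v : V => v ∈ (J0 (supp F {stk0 []})).map (Phi F b)) : Sys (KK b hb) where
  a0 := ⟨_, re_J0_top hc⟩
  a1 := ⟨_, re_J1_top hc⟩
  a2 := ⟨_, re_J2_top hc⟩
  c := ⟨G01 LinearMap.id, re_G01 hc _ id (fun _ => rfl) Computable.id⟩
  c' := ⟨G12 LinearMap.id, re_G12 hc _ id (fun _ => rfl) Computable.id⟩
  e0 := ⟨_, h0⟩
  z k := ⟨_, hZ k⟩
  s k a := ⟨G01 (pmap F k a), re_G01 hc _ (fun p => (psh k a p.1, p.2))
    (fun p => by simp [pmap]) ((psh_primrec k a).to_comp.comp Computable.fst |>.pair Computable.snd)⟩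
  s' k a := ⟨G12 (pmap F k a), re_G12 hc _ (fun p => (psh k a p.1, p.2))
    (fun p => by simp [pmap]) ((psh_primrec k a).to_comp.comp Computable.fst |>.pair Computable.snd)⟩
  d q := ⟨_, hX q⟩

theorem mdlK_val {b : ℕ → V} (hb : LinearIndependent F b) (hc : Computable b) (X : ℕ → Set Stk)
    (hX) (hZ) (h0) : (mdlK hb hc X hX hZ h0).map
      (fun W : KK b hb => (W : Submodule F (NN F × NN F × NN F))) = mdl F X := rfl

end quotient

end Pool.Agent.Lib.MP_8d6ead_lc
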